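import Mathlib
import Pool.Agent.H792R3.SpecMeas
import Pool.Agent.Helper509.SphDefs

/-!
Abstract part: a Fock-space like operator and its resolvent vector; the spectral measure.
-/

set_option autoImplicit false

open MeasureTheory Filter Topology

namespace Pool.Agent.R767.FM

open Pool.Agent.Helper509.SphDefs

section op

variable {K F : Type} [NormedAddCommGroup K] [InnerProductSpace ℂ K] [CompleteSpace K]
  [NormedAddCommGroup F] [InnerProductSpace ℂ F] [CompleteSpace F]

/-- `T = a (ℓ + ℓ*) + U M U*`, `ℓ = U c₁`. -/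
noncomputable def opT (U : F →ₗᵢ[ℂ] K) (M : F →L[ℂ] F) (c1 : K →L[ℂ] F) (a : ℝ) : K →L[ℂ] K :=
  (a : ℂ) • (U.toContinuousLinearMap ∘L c1 +
    ContinuousLinearMap.adjoint (U.toContinuousLinearMap ∘L c1)) +
    U.toContinuousLinearMap ∘L M ∘L ContinuousLinearMap.adjoint U.toContinuousLinearMap

theorem opT_selfAdjoint (U : F →ₗᵢ[ℂ] K) (M : F →L[ℂ] F) (c1 : K →L[ℂ] F) (a : ℝ)
    (hM : IsSelfAdjoint M) : IsSelfAdjoint (opT U M c1 a) := by
  unfold opT
  apply IsSelfAdjoint.add
  · rw [IsSelfAdjoint, star_smul, star_add, ContinuousLinearMap.star_eq_adjoint,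
      ContinuousLinearMap.star_eq_adjoint, ContinuousLinearMap.adjoint_adjoint, add_comm]
    congr 1
    exact Complex.conj_ofReal a
  · rw [IsSelfAdjoint, ContinuousLinearMap.star_eq_adjoint, ContinuousLinearMap.adjoint_comp,
      ContinuousLinearMap.adjoint_comp, ContinuousLinearMap.adjoint_adjoint]
    have : ContinuousLinearMap.adjoint M = M := hM
    rw [this]
    rfl

theorem opT_norm (U : F →ₗᵢ[ℂ] K) (M : F →L[ℂ] F) (c1 : K →L[ℂ] F) {a c : ℝ} (ha : 0 ≤ a)
    (hc1 : ‖c1‖ ≤ 1) (hM : ‖M‖ ≤ c) : ‖opT U M c1 a‖ ≤ 2 * a + c := by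
  have hU : ‖U.toContinuousLinearMap‖ ≤ 1 := U.norm_toContinuousLinearMap_le
  have hUa : ‖ContinuousLinearMap.adjoint U.toContinuousLinearMap‖ ≤ 1 := by
    rw [LinearIsometryEquiv.norm_map]; exact hU
  have h1 : ‖U.toContinuousLinearMap ∘L c1‖ ≤ 1 := by
    refine (ContinuousLinearMap.opNorm_comp_le _ _).trans ?_
    calc _ ≤ 1 * 1 := mul_le_mul hU hc1 (norm_nonneg _) zero_le_one
      _ = 1 := one_mul 1
  have h2 : ‖ContinuousLinearMap.adjoint (U.toContinuousLinearMap ∘L c1)‖ ≤ 1 := by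
    rw [LinearIsometryEquiv.norm_map]; exact h1
  have h3 : ‖U.toContinuousLinearMap ∘L M ∘L
      ContinuousLinearMap.adjoint U.toContinuousLinearMap‖ ≤ c := by
    refine (ContinuousLinearMap.opNorm_comp_le _ _).trans ?_
    have h4 : ‖M ∘L ContinuousLinearMap.adjoint U.toContinuousLinearMap‖ ≤ c := by
      refine (ContinuousLinearMap.opNorm_comp_le _ _).trans ?_
      calc _ ≤ c * 1 := mul_le_mul hM hUa (norm_nonneg _) ((norm_nonneg _).trans hM)
        _ = c := mul_one c
    calc _ ≤ 1 * c := mul_le_mul hU h4 (norm_nonneg _) zero_le_one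
      _ = c := one_mul c
  unfold opT
  refine (norm_add_le _ _).trans (add_le_add ?_ h3)
  rw [norm_smul, Complex.norm_real, Real.norm_of_nonneg ha, mul_comm (2 : ℝ) a]
  refine mul_le_mul_of_nonneg_left ?_ ha
  refine (norm_add_le _ _).trans ?_
  linarith

theorem resolvent_vec (U : F →ₗᵢ[ℂ] K) (M : F →L[ℂ] F) (c1 cf : K →L[ℂ] F) (a : ℝ) (g Q : ℂ)
    (Om : K) (hOm : ‖Om‖ = 1) (hU : ∀ x, inner ℂ Om (U x) = 0) (hg : g ≠ 0)
    (hcf : ∀ k, g • M (cf k) = cf k - c1 k)
    (hQ : ∀ k k', inner ℂ (c1 k) (cf k') = Q * inner ℂ k k')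
    (hsmall : ‖(a : ℂ) * g‖ * ‖cf‖ < 1) :
    ∃ Psi : K, opT U M c1 a Psi = (a ^ 2 * g * Q + 1 / g) • Psi - Om ∧ inner ℂ Om Psi = g := by
  set UL := U.toContinuousLinearMap with hUL
  have hUapp : ∀ x, UL x = U x := fun x => rfl
  set B : K →L[ℂ] K := ((a : ℂ) * g) • (UL ∘L cf) with hB
  have hBn : ‖B‖ < 1 := by
    rw [hB, norm_smul]
    refine lt_of_le_of_lt ?_ hsmall
    refine mul_le_mul_of_nonneg_left ?_ (norm_nonneg _)
    refine (ContinuousLinearMap.opNorm_comp_le _ _).trans ?_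
    calc _ ≤ 1 * ‖cf‖ := mul_le_mul_of_nonneg_right U.norm_toContinuousLinearMap_le (norm_nonneg _)
      _ = ‖cf‖ := one_mul _
  set Psi : K := (↑(Units.oneSub B hBn)⁻¹ : K →L[ℂ] K) (g • Om) with hPsi
  have h1 : Psi = g • Om + ((a : ℂ) * g) • U (cf Psi) := by
    have h2 : (↑(Units.oneSub B hBn) : K →L[ℂ] K) * (↑(Units.oneSub B hBn)⁻¹ : K →L[ℂ] K) = 1 :=
      Units.mul_inv _
    have h3 := congrArg (fun A : K →L[ℂ] K => A (g • Om)) h2
    have h4 : (↑(Units.oneSub B hBn) : K →L[ℂ] K) = 1 - B := rfl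
    rw [h4] at h3
    have h5 : Psi - B Psi = g • Om := h3
    have h6 : B Psi = ((a : ℂ) * g) • U (cf Psi) := rfl
    rw [← h6, ← h5]
    abel
  have hadjOm : ContinuousLinearMap.adjoint UL Om = 0 := by
    apply ext_inner_right ℂ
    intro v
    rw [ContinuousLinearMap.adjoint_inner_left, inner_zero_left]
    exact hU v
  have hadjU : ∀ x, ContinuousLinearMap.adjoint UL (U x) = x := by
    intro x
    apply ext_inner_right ℂ
    intro v
    rw [ContinuousLinearMap.adjoint_inner_left]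
    exact U.inner_map_map x v
  have h7 : ContinuousLinearMap.adjoint UL Psi = ((a : ℂ) * g) • cf Psi := by
    conv_lhs => rw [h1]
    rw [map_add, map_smul, map_smul, hadjOm, hadjU, smul_zero, zero_add]
  have h8 : ∀ k, ContinuousLinearMap.adjoint c1 (cf k) = Q • k := by
    intro k
    apply ext_inner_left ℂ
    intro v
    rw [ContinuousLinearMap.adjoint_inner_right, hQ, inner_smul_right]
  refine ⟨Psi, ?_, ?_⟩
  · have h9 : opT U M c1 a Psi = (a : ℂ) • (U (c1 Psi) + ContinuousLinearMap.adjoint c1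
        (ContinuousLinearMap.adjoint UL Psi)) + U (M (ContinuousLinearMap.adjoint UL Psi)) := by
      unfold opT
      rw [ContinuousLinearMap.adjoint_comp]
      rfl
    rw [h9, h7, map_smul, map_smul, map_smul, h8]
    have h10 : M (cf Psi) = g⁻¹ • (cf Psi - c1 Psi) := by
      rw [← hcf, smul_smul, inv_mul_cancel₀ hg, one_smul]
    rw [h10, map_smul, map_sub]
    have h11 : (1 / g) • Psi = Om + (a : ℂ) • U (cf Psi) := by
      conv_lhs => rw [h1]
      rw [smul_add, smul_smul, smul_smul, one_div, inv_mul_cancel₀ hg, one_smul]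
      congr 2
      field_simp
    rw [add_smul, h11]
    simp only [smul_add, smul_sub, smul_smul]
    have h12 : (a : ℂ) * g * g⁻¹ = a := by field_simp
    rw [h12]
    have h13 : (a : ℂ) * (a * g * Q) = a ^ 2 * g * Q := by ring
    rw [h13]
    abel
  · rw [h1, inner_add_right, inner_smul_right, inner_smul_right, hU, mul_zero, add_zero,
      inner_self_eq_norm_sq_to_K, hOm]
    simp

end op

section spec

variable {K : Type} [NormedAddCommGroup K] [InnerProductSpace ℂ K] [CompleteSpace K]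

theorem exists_spec (T : K →L[ℂ] K) (hT : IsSelfAdjoint T) (Om : K) (hOm : ‖Om‖ = 1) {r : ℝ}
    (hr : ‖T‖ ≤ r) :
    ∃ μ : Measure ℝ, IsProbabilityMeasure μ ∧ μ (Set.Icc (-r) r)ᶜ = 0 ∧
      ∀ (ζ : ℂ) (Psi : K), r < ‖ζ‖ → T Psi = ζ • Psi - Om → cauchyT μ ζ = inner ℂ Om Psi := by
  have hr0 : 0 ≤ r := (norm_nonneg _).trans hr
  obtain ⟨μ, hfin, hμ⟩ := Pool.Agent.H792R3.exists_specMeas T hT Om
  have hspec : ∀ x ∈ spectrum ℝ T, |x| ≤ r := by
    intro x hx
    have h1 := spectrum.norm_le_norm_mul_of_mem hx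
    have h2 : ‖(1 : K →L[ℂ] K)‖ ≤ 1 := ContinuousLinearMap.norm_id_le
    have h3 : ‖T‖ * ‖(1 : K →L[ℂ] K)‖ ≤ ‖T‖ * 1 := mul_le_mul_of_nonneg_left h2 (norm_nonneg _)
    rw [Real.norm_eq_abs] at h1
    linarith
  have hprob : IsProbabilityMeasure μ := by
    have h1 := (hμ (fun _ => 1) continuous_const).2
    rw [cfc_const_one (R := ℝ) T hT, one_apply_eq_self, inner_self_eq_norm_sq_to_K, hOm] at h1
    have h2 : μ.real Set.univ = 1 := by
      have : (∫ _ : ℝ, (1 : ℝ) ∂μ) = μ.real Set.univ := by simp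
      rw [this] at h1
      simpa using h1
    exact ⟨by
      have h3 := (ENNReal.toReal_eq_one_iff _).1 h2
      exact h3⟩
  refine ⟨μ, hprob, ?_, ?_⟩
  · -- support
    have hc : Continuous (fun x : ℝ => max 0 (|x| - r)) := by fun_prop
    obtain ⟨hi, h1⟩ := hμ _ hc
    have h2 : cfc (fun x : ℝ => max 0 (|x| - r)) T = 0 := by
      have : cfc (fun x : ℝ => max 0 (|x| - r)) T = cfc (fun _ : ℝ => (0 : ℝ)) T := by
        apply cfc_congr
        intro x hx
        exact max_eq_left (by linarith [hspec x hx])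
      rw [this, cfc_const_zero]
    rw [h2] at h1
    have h3 : (∫ x, max 0 (|x| - r) ∂μ) = 0 := by
      have : ((∫ x, max 0 (|x| - r) ∂μ : ℝ) : ℂ) = 0 := by rw [h1]; simp
      exact_mod_cast this
    have h4 := (integral_eq_zero_iff_of_nonneg (fun x => le_max_left _ _) hi).1 h3
    have h5 : ∀ᵐ x ∂μ, x ∈ Set.Icc (-r) r := by
      filter_upwards [h4] with x hx
      have : |x| - r ≤ 0 := by
        have h6 := le_max_right 0 (|x| - r)
        have h7 : max 0 (|x| - r) = 0 := hx
        linarith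
      exact abs_le.1 (by linarith)
    exact h5
  · intro ζ Psi hζ hPsi
    have hae : ∀ᵐ x ∂μ, |x| ≤ r := by
      have hc : Continuous (fun x : ℝ => max 0 (|x| - r)) := by fun_prop
      obtain ⟨hi, h1⟩ := hμ _ hc
      have h2 : cfc (fun x : ℝ => max 0 (|x| - r)) T = 0 := by
        have : cfc (fun x : ℝ => max 0 (|x| - r)) T = cfc (fun _ : ℝ => (0 : ℝ)) T := by
          apply cfc_congr
          intro x hx
          exact max_eq_left (by linarith [hspec x hx])
        rw [this, cfc_const_zero]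
      rw [h2] at h1
      have h3 : (∫ x, max 0 (|x| - r) ∂μ) = 0 := by
        have : ((∫ x, max 0 (|x| - r) ∂μ : ℝ) : ℂ) = 0 := by rw [h1]; simp
        exact_mod_cast this
      have h4 := (integral_eq_zero_iff_of_nonneg (fun x => le_max_left _ _) hi).1 h3
      filter_upwards [h4] with x hx
      have h6 := le_max_right 0 (|x| - r)
      have h7 : max 0 (|x| - r) = 0 := hx
      linarith
    have hmom : ∀ n : ℕ, ∫ x : ℝ, ((x : ℂ)) ^ n ∂μ = inner ℂ Om ((T ^ n) Om) := by
      intro n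
      have h1 := (hμ (fun x => x ^ n) (by fun_prop)).2
      rw [cfc_pow_id (R := ℝ) T n hT] at h1
      rw [← h1, ← integral_complex_ofReal]
      simp
    have hζ0 : ζ ≠ 0 := by
      intro h; rw [h, norm_zero] at hζ; linarith
    have hne : ∀ x : ℝ, |x| ≤ r → ζ - (x : ℂ) ≠ 0 := by
      intro x hx h
      have : ζ = x := sub_eq_zero.1 h
      rw [this, Complex.norm_real, Real.norm_eq_abs] at hζ
      linarith
    -- integrability of bounded functions
    have hint : ∀ n : ℕ, Integrable (fun x : ℝ => (x : ℂ) ^ n * (ζ - x)⁻¹) μ := by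
      intro n
      refine Integrable.of_bound (C := r ^ n * (‖ζ‖ - r)⁻¹) ?_ ?_
      · apply Measurable.aestronglyMeasurable
        fun_prop
      · filter_upwards [hae] with x hx
        rw [norm_mul, norm_pow, norm_inv, Complex.norm_real, Real.norm_eq_abs]
        have h1 : ‖ζ‖ - r ≤ ‖ζ - x‖ := by
          have := norm_sub_norm_le ζ (x : ℂ)
          rw [Complex.norm_real, Real.norm_eq_abs] at this
          linarith
        have h2 : 0 < ‖ζ‖ - r := by linarith
        gcongr
    have hintp : ∀ n : ℕ, Integrable (fun x : ℝ => (x : ℂ) ^ n) μ := by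
      intro n
      refine Integrable.of_bound (C := r ^ n) ?_ ?_
      · apply Measurable.aestronglyMeasurable
        fun_prop
      · filter_upwards [hae] with x hx
        rw [norm_pow, Complex.norm_real, Real.norm_eq_abs]
        gcongr
    have hstep : ∀ n : ℕ, cauchyT μ ζ - inner ℂ Om Psi =
        (ζ⁻¹) ^ n * ((∫ x : ℝ, (x : ℂ) ^ n * (ζ - x)⁻¹ ∂μ) - inner ℂ Om ((T ^ n) Psi)) := by
      intro n
      induction n with
      | zero => simp [cauchyT]
      | succ n ih =>
        rw [ih, pow_succ (ζ⁻¹) n, mul_assoc]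
        congr 1
        have h1 : (∫ x : ℝ, (x : ℂ) ^ n * (ζ - x)⁻¹ ∂μ) =
            ζ⁻¹ * ((∫ x : ℝ, (x : ℂ) ^ n ∂μ) + ∫ x : ℝ, (x : ℂ) ^ (n + 1) * (ζ - x)⁻¹ ∂μ) := by
          rw [← integral_add (hintp n) (hint (n + 1)), ← integral_const_mul]
          apply integral_congr_ae
          filter_upwards [hae] with x hx
          have := hne x hx
          field_simp
          ring
        have h2 : inner ℂ Om ((T ^ n) Psi) =
            ζ⁻¹ * (inner ℂ Om ((T ^ n) Om) + inner ℂ Om ((T ^ (n + 1)) Psi)) := by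
          have h3 : (T ^ (n + 1)) Psi = ζ • (T ^ n) Psi - (T ^ n) Om := by
            rw [pow_succ, mul_apply_eq_comp, hPsi, map_sub, map_smul]
          rw [h3, inner_sub_right, inner_smul_right]
          field_simp
          ring
        rw [h1, h2, hmom]
        ring
    have hbound : ∀ n : ℕ, ‖cauchyT μ ζ - inner ℂ Om Psi‖ ≤
        (r / ‖ζ‖) ^ n * ((‖ζ‖ - r)⁻¹ + ‖Psi‖) := by
      intro n
      rw [hstep n, norm_mul, norm_pow, norm_inv, div_pow, div_eq_mul_inv, ← inv_pow, mul_comm (r ^ n),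
        mul_assoc]
      refine mul_le_mul_of_nonneg_left ?_ (by positivity)
      refine (norm_sub_le _ _).trans ?_
      rw [mul_add]
      refine add_le_add ?_ ?_
      · refine (norm_integral_le_of_norm_le_const (C := r ^ n * (‖ζ‖ - r)⁻¹) ?_).trans ?_
        · filter_upwards [hae] with x hx
          rw [norm_mul, norm_pow, norm_inv, Complex.norm_real, Real.norm_eq_abs]
          have h1 : ‖ζ‖ - r ≤ ‖ζ - x‖ := by
            have := norm_sub_norm_le ζ (x : ℂ)
            rw [Complex.norm_real, Real.norm_eq_abs] at this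
            linarith
          have h2 : 0 < ‖ζ‖ - r := by linarith
          gcongr
        · simp
      · refine (norm_inner_le_norm _ _).trans ?_
        rw [hOm, one_mul]
        refine ((T ^ n).le_opNorm Psi).trans ?_
        refine mul_le_mul_of_nonneg_right ?_ (norm_nonneg _)
        rcases Nat.eq_zero_or_pos n with h0 | h0
        · subst h0; simp only [pow_zero]; exact ContinuousLinearMap.norm_id_le
        · exact (norm_pow_le' T h0).trans (pow_le_pow_left₀ (norm_nonneg _) hr n)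
    have hlim : Tendsto (fun n : ℕ => (r / ‖ζ‖) ^ n * ((‖ζ‖ - r)⁻¹ + ‖Psi‖)) atTop (𝓝 0) := by
      have h1 : r / ‖ζ‖ < 1 := by
        rw [div_lt_one (by linarith)]; exact hζ
      have := (tendsto_pow_atTop_nhds_zero_of_lt_one (by positivity) h1).mul_const
        ((‖ζ‖ - r)⁻¹ + ‖Psi‖)
      rwa [zero_mul] at this
    have hfin0 : ‖cauchyT μ ζ - inner ℂ Om Psi‖ ≤ 0 := ge_of_tendsto' hlim hbound
    exact sub_eq_zero.1 (norm_le_zero_iff.1 hfin0)

end spec

end Pool.Agent.R767.FM
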