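import Mathlib
import Pool.Agent.Helper509.SphDefs

/-!
Definitions: free regular laws and free multiplicative convolution of compactly supported laws.
`CompactProb`, `cauchyT`, `IsRTransform`, `IsFreePow` and `FreelyInfDiv` are in
`Pool/Agent/Helper509/SphDefs.lean`.
-/

set_option autoImplicit false

open MeasureTheory Filter Topology

namespace Pool.Agent.R767.FM

open Pool.Agent.Helper509.SphDefs

/-- A compactly supported probability measure on `[0, ∞)`. -/
def CompactPos (μ : Measure ℝ) : Prop := CompactProb μ ∧ μ (Set.Iio 0) = 0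

/-- `ν = μ^{⊞ t}`: `t` times the R-transform of `μ` is the R-transform of `ν`. -/
def IsFreePower (t : ℝ) (μ ν : Measure ℝ) : Prop :=
  ∃ R : ℂ → ℂ, IsRTransform μ R ∧ IsRTransform ν (fun z => (t : ℂ) * R z)

/-- A free regular compactly supported law: it is freely infinitely divisible and for every `t > 0`
the free convolution power `μ^{⊞ t}` lives on `[0, ∞)`. -/
def FreeRegular (μ : Measure ℝ) : Prop :=
  FreelyInfDiv μ ∧ ∀ t : ℝ, 0 < t → ∃ ν : Measure ℝ, CompactPos ν ∧ IsFreePower t μ ν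

/-- `ψ_μ(z) = ∫ z x / (1 - z x) dμ(x)`. -/
noncomputable def psiT (μ : Measure ℝ) (z : ℂ) : ℂ := ∫ x : ℝ, z * x / (1 - z * x) ∂μ

/-- `S` is the S-transform of `μ`: `S` is analytic at `0` and `ψ_μ(y S(y) / (1 + y)) = y` for all
small `y`; that is, `S(y) = χ(y) (1 + y) / y`, where `χ` is the local inverse of `ψ_μ`. -/
def IsSTransform (μ : Measure ℝ) (S : ℂ → ℂ) : Prop :=
  AnalyticAt ℂ S 0 ∧ ∀ᶠ y in 𝓝 (0 : ℂ), psiT μ (y * S y / (1 + y)) = y

/-- `ρ = μ ⊠ ν`: the S-transform of `ρ` is the product of those of `μ` and `ν`. -/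
def IsFreeMulConv (μ ν ρ : Measure ℝ) : Prop :=
  ∃ S T : ℂ → ℂ, IsSTransform μ S ∧ IsSTransform ν T ∧ IsSTransform ρ (fun y => S y * T y)

end Pool.Agent.R767.FM
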