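import Mathlib

/-!
An isometric embedding of a separable Hilbert space into `ℓ²(ℕ)`, orthogonal to the first
basis vector.
-/

set_option autoImplicit false

open MeasureTheory Filter Topology

namespace Pool.Agent.R767.FM

/-- the Hilbert space `ℓ²(ℕ)` -/
abbrev K : Type := lp (fun _ : ℕ => ℂ) 2

/-- the standard basis -/
noncomputable def eb : HilbertBasis ℕ ℂ K := HilbertBasis.ofRepr (LinearIsometryEquiv.refl ℂ K)

instance separable_K : TopologicalSpace.SeparableSpace K := by
  have h1 : TopologicalSpace.IsSeparable (Set.range (eb : ℕ → K)) :=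
    (Set.countable_range _).isSeparable
  have h2 : TopologicalSpace.IsSeparable
      ((Submodule.span ℂ (Set.range (eb : ℕ → K)) : Submodule ℂ K) : Set K) := h1.span (R := ℂ)
  have h3 := h2.closure
  have h4 := eb.dense_span
  have h5 : closure ((Submodule.span ℂ (Set.range (eb : ℕ → K)) : Submodule ℂ K) : Set K) =
      Set.univ := by
    rw [← Submodule.topologicalClosure_coe, h4]
    rfl
  rw [h5] at h3
  exact TopologicalSpace.isSeparable_univ_iff.mp h3

theorem countable_basis {F : Type} [NormedAddCommGroup F] [InnerProductSpace ℂ F]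
    [SecondCountableTopology F] {w : Set F} (hw : Orthonormal ℂ ((↑) : w → F)) :
    w.Countable := by
  have h1 : w.PairwiseDisjoint (fun x => Metric.ball x (1/2)) := by
    intro x hx y hy hxy
    apply Metric.ball_disjoint_ball
    have h2 : ‖x - y‖ ^ 2 = 2 := by
      rw [@norm_sub_sq ℂ]
      have hx1 : ‖x‖ = 1 := hw.1 ⟨x, hx⟩
      have hy1 : ‖y‖ = 1 := hw.1 ⟨y, hy⟩
      have hxy1 : inner ℂ x y = 0 := hw.2 (i := ⟨x, hx⟩) (j := ⟨y, hy⟩)
        (fun h => hxy (congrArg Subtype.val h))
      rw [hx1, hy1, hxy1]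
      norm_num
    rw [dist_eq_norm]
    nlinarith [norm_nonneg (x - y)]
  refine Set.PairwiseDisjoint.countable_of_isOpen h1 (fun x _ => Metric.isOpen_ball)
    (fun x _ => ⟨x, Metric.mem_ball_self (by norm_num)⟩)

theorem exists_isometry (F : Type) [NormedAddCommGroup F] [InnerProductSpace ℂ F]
    [CompleteSpace F] [SecondCountableTopology F] :
    ∃ U : F →ₗᵢ[ℂ] K, ∀ x, inner ℂ (eb 0) (U x) = 0 := by
  obtain ⟨w, b, hb⟩ := exists_hilbertBasis ℂ F
  have hw : Orthonormal ℂ ((↑) : w → F) := hb ▸ b.orthonormal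
  have hc := countable_basis hw
  haveI : Countable w := hc
  obtain ⟨f, hf⟩ := exists_injective_nat w
  have hv : Orthonormal ℂ (fun i : w => eb (f i + 1)) :=
    eb.orthonormal.comp _ (fun i j hij => hf (by simpa using hij))
  let U0 := hv.orthogonalFamily.linearIsometry
  refine ⟨U0.comp b.repr.toLinearIsometry, fun x => ?_⟩
  have h1 : HasSum _ (U0 (b.repr x)) := hv.orthogonalFamily.hasSum_linearIsometry (b.repr x)
  have h2 := h1.mapL (innerSL ℂ (eb 0))
  have h3 : ∀ i : w, (innerSL ℂ (eb 0)) ((LinearIsometry.toSpanSingleton ℂ K (hv.1 i))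
      ((b.repr x) i)) = 0 := by
    intro i
    rw [innerSL_apply_apply, LinearIsometry.toSpanSingleton_apply, inner_smul_right,
      eb.orthonormal.2 (by omega), mul_zero]
  simp only [h3] at h2
  exact h2.unique hasSum_zero

end Pool.Agent.R767.FM
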