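import Mathlib
import Pool.Agent.R767.FM.Iso
import Pool.Agent.R767.FM.Abs

/-!
Multiplication operators on `L²(lam; ℓ²)` and the existence of freely infinitely divisible laws with
a given free Lévy-Khintchine pair.
-/

set_option autoImplicit false

open MeasureTheory Filter Topology

namespace Pool.Agent.R767.FM

open Pool.Agent.Helper509.SphDefs

section mult

variable {lam : Measure ℝ} [IsProbabilityMeasure lam]

theorem memLp_cmap (f : ℝ → ℂ) (hf : Measurable f) (C : ℝ) (hC : ∀ᵐ x ∂lam, ‖f x‖ ≤ C) (k : K) :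
    MemLp (fun x => f x • k) 2 lam := by
  refine MemLp.of_bound (hf.aestronglyMeasurable.smul aestronglyMeasurable_const) (C * ‖k‖) ?_
  filter_upwards [hC] with x hx
  rw [norm_smul]
  exact mul_le_mul_of_nonneg_right hx (norm_nonneg _)

/-- `k ↦ (x ↦ f x • k)` -/
noncomputable def cmap (lam : Measure ℝ) [IsProbabilityMeasure lam] (f : ℝ → ℂ) (hf : Measurable f)
    (C : ℝ) (hC : ∀ᵐ x ∂lam, ‖f x‖ ≤ C) : K →L[ℂ] Lp K 2 lam :=
  LinearMap.mkContinuous
    { toFun := fun k => (memLp_cmap f hf C hC k).toLp _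
      map_add' := by
        intro k k'
        rw [← MemLp.toLp_add]
        congr 1
        ext1 x
        simp [smul_add]
      map_smul' := by
        intro a k
        rw [RingHom.id_apply, ← MemLp.toLp_const_smul]
        congr 1
        ext1 x
        simp only [Pi.smul_apply]
        rw [smul_comm] } C (by
    intro k
    have h1 : 0 ≤ C := by
      obtain ⟨x, hx⟩ := hC.exists
      exact (norm_nonneg _).trans hx
    have h2 := Lp.norm_le_of_ae_bound (f := (memLp_cmap f hf C hC k).toLp _) (C := C * ‖k‖)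
      (by positivity) (by
        filter_upwards [hC, (memLp_cmap f hf C hC k).coeFn_toLp] with x hx hx2
        rw [hx2, norm_smul]
        exact mul_le_mul_of_nonneg_right hx (norm_nonneg _))
    have h3 : measureUnivNNReal lam = 1 := by simp [measureUnivNNReal]
    rw [h3] at h2
    simpa using h2)

theorem cmap_coe (f : ℝ → ℂ) (hf : Measurable f) (C : ℝ) (hC : ∀ᵐ x ∂lam, ‖f x‖ ≤ C) (k : K) :
    (cmap lam f hf C hC k : ℝ → K) =ᵐ[lam] fun x => f x • k :=
  (memLp_cmap f hf C hC k).coeFn_toLp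

theorem cmap_norm (f : ℝ → ℂ) (hf : Measurable f) (C : ℝ) (hC : ∀ᵐ x ∂lam, ‖f x‖ ≤ C) :
    ‖cmap lam f hf C hC‖ ≤ C := by
  refine LinearMap.mkContinuous_norm_le _ ?_ _
  obtain ⟨x, hx⟩ := hC.exists
  exact (norm_nonneg _).trans hx

theorem memLp_mulh (h : ℝ → ℝ) (hm : Measurable h) (c : ℝ) (hc : ∀ᵐ x ∂lam, |h x| ≤ c)
    (F : Lp K 2 lam) : MemLp (fun x => (h x : ℂ) • (F : ℝ → K) x) 2 lam := by
  refine (Lp.memLp F).of_le_mul (c := c) ?_ ?_
  · exact (Complex.measurable_ofReal.comp hm).aestronglyMeasurable.smul (Lp.aestronglyMeasurable F)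
  · filter_upwards [hc] with x hx
    rw [norm_smul, Complex.norm_real, Real.norm_eq_abs]
    exact mul_le_mul_of_nonneg_right hx (norm_nonneg _)

/-- multiplication by the bounded real function `h` -/
noncomputable def mulh (lam : Measure ℝ) [IsProbabilityMeasure lam] (h : ℝ → ℝ) (hm : Measurable h)
    (c : ℝ) (hc : ∀ᵐ x ∂lam, |h x| ≤ c) : Lp K 2 lam →L[ℂ] Lp K 2 lam :=
  LinearMap.mkContinuous
    { toFun := fun F => (memLp_mulh h hm c hc F).toLp _
      map_add' := by
        intro F G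
        rw [← MemLp.toLp_add]
        apply MemLp.toLp_congr
        filter_upwards [Lp.coeFn_add F G] with x hx
        simp only [hx, Pi.add_apply, smul_add]
      map_smul' := by
        intro a F
        rw [RingHom.id_apply, ← MemLp.toLp_const_smul]
        apply MemLp.toLp_congr
        filter_upwards [Lp.coeFn_smul a F] with x hx
        simp only [hx, Pi.smul_apply]
        rw [smul_comm] } c (by
    intro F
    apply Lp.norm_le_mul_norm_of_ae_le_mul
    filter_upwards [hc, (memLp_mulh h hm c hc F).coeFn_toLp] with x hx hx2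
    have : ((memLp_mulh h hm c hc F).toLp _ : ℝ → K) x = (h x : ℂ) • (F : ℝ → K) x := hx2
    change ‖((memLp_mulh h hm c hc F).toLp _ : ℝ → K) x‖ ≤ _
    rw [this, norm_smul, Complex.norm_real, Real.norm_eq_abs]
    exact mul_le_mul_of_nonneg_right hx (norm_nonneg _))

theorem mulh_coe (h : ℝ → ℝ) (hm : Measurable h) (c : ℝ) (hc : ∀ᵐ x ∂lam, |h x| ≤ c)
    (F : Lp K 2 lam) :
    (mulh lam h hm c hc F : ℝ → K) =ᵐ[lam] fun x => (h x : ℂ) • (F : ℝ → K) x :=
  (memLp_mulh h hm c hc F).coeFn_toLp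

theorem mulh_norm (h : ℝ → ℝ) (hm : Measurable h) (c : ℝ) (hc : ∀ᵐ x ∂lam, |h x| ≤ c) :
    ‖mulh lam h hm c hc‖ ≤ c := by
  refine LinearMap.mkContinuous_norm_le _ ?_ _
  obtain ⟨x, hx⟩ := hc.exists
  exact (abs_nonneg _).trans hx

theorem mulh_selfAdjoint (h : ℝ → ℝ) (hm : Measurable h) (c : ℝ) (hc : ∀ᵐ x ∂lam, |h x| ≤ c) :
    IsSelfAdjoint (mulh lam h hm c hc) := by
  rw [ContinuousLinearMap.isSelfAdjoint_iff_isSymmetric]
  intro F G
  change inner ℂ (mulh lam h hm c hc F) G = inner ℂ F (mulh lam h hm c hc G)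
  rw [L2.inner_def, L2.inner_def]
  apply integral_congr_ae
  filter_upwards [mulh_coe h hm c hc F, mulh_coe h hm c hc G] with x hx hx2
  rw [hx, hx2, inner_smul_left, inner_smul_right, Complex.conj_ofReal]

end mult

/-- Existence: for every probability measure `lam`, every a.e. bounded function `h`, real `γ` and
`b ≥ 0` there is a compactly supported law with R-transform
`R(g) = γ + b ∫ g / (1 - g h) dlam`. -/
theorem exists_law (lam : Measure ℝ) [IsProbabilityMeasure lam] (h : ℝ → ℝ) (hm : Measurable h)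
    (c : ℝ) (hc : ∀ᵐ x ∂lam, |h x| ≤ c) (γ b : ℝ) (hb : 0 ≤ b) :
    ∃ μ : Measure ℝ, CompactProb μ ∧ μ (Set.Icc (γ - (2 * √b + c)) (γ + (2 * √b + c)))ᶜ = 0 ∧
      IsRTransform μ (fun g => γ + b * g * ∫ x, (1 - g * (h x : ℂ))⁻¹ ∂lam) := by
  have hc0 : 0 ≤ c := by
    obtain ⟨x, hx⟩ := hc.exists
    exact (abs_nonneg _).trans hx
  haveI : Fact ((2 : ENNReal) ≠ ⊤) := ⟨by norm_num⟩
  obtain ⟨U, hU⟩ := exists_isometry (Lp K 2 lam)
  have hone : ∀ᵐ x ∂lam, ‖(fun _ : ℝ => (1 : ℂ)) x‖ ≤ 1 := Eventually.of_forall fun x => by simp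
  set c1 := cmap lam (fun _ => 1) measurable_const 1 hone with hc1
  set M := mulh lam h hm c hc with hM
  set a := √b with ha
  set T := opT U M c1 a with hT
  have hTs : IsSelfAdjoint T := opT_selfAdjoint U M c1 a (mulh_selfAdjoint h hm c hc)
  have hTn : ‖T‖ ≤ 2 * a + c := opT_norm U M c1 (Real.sqrt_nonneg _) (cmap_norm _ _ _ _)
    (mulh_norm _ _ _ _)
  have hOm : ‖(eb 0 : K)‖ = 1 := eb.orthonormal.1 0
  obtain ⟨μ0, hp, hsupp, hres⟩ := exists_spec T hTs (eb 0) hOm hTn
  set r := 2 * a + c with hr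
  have hr0 : 0 ≤ r := by positivity
  have ha2 : (a : ℂ) ^ 2 = b := by
    rw [ha, ← Complex.ofReal_pow, Real.sq_sqrt hb]
  have hmeas : Measurable (fun x : ℝ => x + γ) := measurable_id.add_const γ
  have hsupp2 : (μ0.map (fun x => x + γ)) (Set.Icc (γ - r) (γ + r))ᶜ = 0 := by
    rw [Measure.map_apply hmeas measurableSet_Icc.compl]
    have : (fun x : ℝ => x + γ) ⁻¹' (Set.Icc (γ - r) (γ + r))ᶜ = (Set.Icc (-r) r)ᶜ := by
      ext x
      simp only [Set.mem_preimage, Set.mem_compl_iff, Set.mem_Icc, not_iff_not]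
      constructor
      · rintro ⟨h1, h2⟩; constructor <;> linarith
      · rintro ⟨h1, h2⟩; constructor <;> linarith
    rw [this, hsupp]
  have hana : AnalyticAt ℂ (fun g : ℂ => ∫ x, (1 - g * (h x : ℂ))⁻¹ ∂lam) 0 := by
    have hδ : 0 < (2 * (c + 1))⁻¹ := by positivity
    have hd : DifferentiableOn ℂ (fun g : ℂ => ∫ x, (1 - g * (h x : ℂ))⁻¹ ∂lam)
        (Metric.ball 0 (2 * (c + 1))⁻¹) := by
      intro g0 hg0
      have hlow : ∀ g ∈ Metric.ball (0 : ℂ) (2 * (c + 1))⁻¹, ∀ x : ℝ, |h x| ≤ c →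
          1 / 2 ≤ ‖1 - g * (h x : ℂ)‖ := by
        intro g hg x hx
        rw [mem_ball_zero_iff] at hg
        have h2 : ‖g * (h x : ℂ)‖ ≤ 1 / 2 := by
          rw [norm_mul, Complex.norm_real, Real.norm_eq_abs]
          calc ‖g‖ * |h x| ≤ (2 * (c + 1))⁻¹ * (c + 1) :=
                mul_le_mul hg.le (by linarith) (abs_nonneg _) hδ.le
            _ = 1 / 2 := by field_simp
        have h3 := norm_sub_norm_le (1 : ℂ) (g * (h x : ℂ))
        rw [norm_one] at h3
        linarith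
      have := hasDerivAt_integral_of_dominated_loc_of_deriv_le (μ := lam)
        (F := fun (g : ℂ) (x : ℝ) => (1 - g * (h x : ℂ))⁻¹)
        (F' := fun (g : ℂ) (x : ℝ) => (h x : ℂ) / (1 - g * (h x : ℂ)) ^ 2)
        (x₀ := g0) (s := Metric.ball 0 (2 * (c + 1))⁻¹) (bound := fun _ => c * 4)
        (Metric.isOpen_ball.mem_nhds hg0)
        (Eventually.of_forall fun g => Measurable.aestronglyMeasurable (by fun_prop)) ?_
        (Measurable.aestronglyMeasurable (by fun_prop)) ?_ (integrable_const _) ?_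
      · exact this.2.differentiableAt.differentiableWithinAt
      · refine Integrable.of_bound (C := 2) (Measurable.aestronglyMeasurable (by fun_prop)) ?_
        filter_upwards [hc] with x hx
        have h2 := hlow g0 hg0 x hx
        rw [norm_inv]
        calc _ ≤ (1 / 2 : ℝ)⁻¹ := inv_anti₀ (by norm_num) h2
          _ = 2 := by norm_num
      · filter_upwards [hc] with x hx g hg
        have h2 := hlow g hg x hx
        rw [norm_div, norm_pow, Complex.norm_real, Real.norm_eq_abs]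
        rw [div_le_iff₀ (by positivity)]
        nlinarith [abs_nonneg (h x), mul_le_mul h2 h2 (by norm_num) (norm_nonneg _)]
      · filter_upwards [hc] with x hx g hg
        have h2 := hlow g hg x hx
        have h3 : 1 - g * (h x : ℂ) ≠ 0 := by
          intro h0; rw [h0, norm_zero] at h2; linarith
        have h4 : HasDerivAt (fun g : ℂ => 1 - g * (h x : ℂ)) (-(h x : ℂ)) g := by
          have := ((hasDerivAt_id g).mul_const (h x : ℂ)).const_sub 1
          simpa using this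
        have h5 : HasDerivAt (fun g : ℂ => (1 - g * (h x : ℂ))⁻¹) ((h x : ℂ) / (1 - g * (h x : ℂ)) ^ 2) g := by
          simpa using h4.fun_inv h3
        exact h5
    exact hd.analyticAt (Metric.ball_mem_nhds _ hδ)
  refine ⟨μ0.map (fun x => x + γ), ⟨Measure.isProbabilityMeasure_map hmeas.aemeasurable,
    |γ| + r, ?_⟩, hsupp2, ?_, ?_⟩
  · refine measure_mono_null ?_ hsupp2
    apply Set.compl_subset_compl.2
    intro x hx
    have h1 := neg_abs_le γ
    have h2 := le_abs_self γ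
    constructor
    · linarith [hx.1]
    · linarith [hx.2]
  · fun_prop
  · -- the functional equation
    have h1 : ∀ᶠ g : ℂ in 𝓝[≠] 0,
        r < ‖(b : ℂ) * g * (∫ x, (1 - g * (h x : ℂ))⁻¹ ∂lam) + 1 / g‖ := by
      have h2 : ∀ᶠ g : ℂ in 𝓝 0, ‖(b : ℂ) * g * (∫ x, (1 - g * (h x : ℂ))⁻¹ ∂lam)‖ < 1 := by
        have h3 : ContinuousAt (fun g : ℂ => ‖(b : ℂ) * g * (∫ x, (1 - g * (h x : ℂ))⁻¹ ∂lam)‖) 0 :=
          ((continuousAt_const.mul continuousAt_id).mul hana.continuousAt).norm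
        have h4 : Tendsto (fun g : ℂ => ‖(b : ℂ) * g * (∫ x, (1 - g * (h x : ℂ))⁻¹ ∂lam)‖) (𝓝 0)
            (𝓝 0) := by
          have := h3.tendsto
          simpa using this
        exact h4.eventually (gt_mem_nhds one_pos)
      have h5 : ∀ᶠ g : ℂ in 𝓝[≠] 0, r + 1 < ‖g⁻¹‖ :=
        (tendsto_norm_inv_nhdsNE_zero_atTop (α := ℂ)).eventually (eventually_gt_atTop (r + 1))
      filter_upwards [h2.filter_mono nhdsWithin_le_nhds, h5] with g h6 h7
      have h8 := norm_sub_norm_le (1 / g) (-((b : ℂ) * g * (∫ x, (1 - g * (h x : ℂ))⁻¹ ∂lam)))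
      rw [norm_neg, sub_neg_eq_add, add_comm (1 / g), one_div] at h8
      rw [one_div]
      linarith
    have h2 : ∀ᶠ g : ℂ in 𝓝[≠] 0, ‖g‖ < (2 * (a + c + 1))⁻¹ := by
      have : ∀ᶠ g : ℂ in 𝓝 0, ‖g‖ < (2 * (a + c + 1))⁻¹ := by
        have h3 : Tendsto (fun g : ℂ => ‖g‖) (𝓝 0) (𝓝 0) := by
          simpa using (continuous_norm (E := ℂ)).tendsto 0
        exact h3.eventually (gt_mem_nhds (by positivity))
      exact this.filter_mono nhdsWithin_le_nhds
    filter_upwards [h1, h2, self_mem_nhdsWithin] with g hg1 hg2 hg3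
    have hg0 : g ≠ 0 := hg3
    have ha0 : 0 ≤ a := Real.sqrt_nonneg b
    have hac : a + c + 1 ≠ 0 := by positivity
    have hlow : ∀ x : ℝ, |h x| ≤ c → 1 / 2 ≤ ‖1 - g * (h x : ℂ)‖ := by
      intro x hx
      have h2 : ‖g * (h x : ℂ)‖ ≤ 1 / 2 := by
        rw [norm_mul, Complex.norm_real, Real.norm_eq_abs]
        calc ‖g‖ * |h x| ≤ (2 * (a + c + 1))⁻¹ * (a + c + 1) :=
              mul_le_mul hg2.le (by have := Real.sqrt_nonneg b; linarith) (abs_nonneg _) (by positivity)
          _ = 1 / 2 := by field_simp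
      have h3 := norm_sub_norm_le (1 : ℂ) (g * (h x : ℂ))
      rw [norm_one] at h3
      linarith
    have hne : ∀ x : ℝ, |h x| ≤ c → 1 - g * (h x : ℂ) ≠ 0 := by
      intro x hx h0
      have := hlow x hx
      rw [h0, norm_zero] at this
      linarith
    have hfm : Measurable (fun x : ℝ => (1 - g * (h x : ℂ))⁻¹) := by fun_prop
    have hfb : ∀ᵐ x ∂lam, ‖(fun x : ℝ => (1 - g * (h x : ℂ))⁻¹) x‖ ≤ 2 := by
      filter_upwards [hc] with x hx
      have h2 := hlow x hx
      rw [norm_inv]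
      calc _ ≤ (1 / 2 : ℝ)⁻¹ := inv_anti₀ (by norm_num) h2
        _ = 2 := by norm_num
    set cf := cmap lam (fun x : ℝ => (1 - g * (h x : ℂ))⁻¹) hfm 2 hfb with hcf
    have hA : ∀ k, g • M (cf k) = cf k - c1 k := by
      intro k
      apply Lp.ext
      filter_upwards [hc, Lp.coeFn_smul g (M (cf k)), Lp.coeFn_sub (cf k) (c1 k),
        mulh_coe h hm c hc (cf k), cmap_coe _ hfm 2 hfb k, cmap_coe (lam := lam) (fun _ => 1) measurable_const 1
        hone k] with x hx h3 h4 h5 h6 h7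
      rw [h3, h4, Pi.smul_apply, Pi.sub_apply]
      have h5' : (M (cf k) : ℝ → K) x = (h x : ℂ) • (cf k : ℝ → K) x := h5
      have h6' : (cf k : ℝ → K) x = (1 - g * (h x : ℂ))⁻¹ • k := h6
      have h7' : (c1 k : ℝ → K) x = (1 : ℂ) • k := h7
      rw [h5', h6', h7', smul_smul, smul_smul, ← sub_smul]
      congr 1
      have := hne x hx
      field_simp
      ring
    have hB : ∀ k k', inner ℂ (c1 k) (cf k') =
        (∫ x, (1 - g * (h x : ℂ))⁻¹ ∂lam) * inner ℂ k k' := by
      intro k k'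
      rw [L2.inner_def, ← integral_mul_const]
      apply integral_congr_ae
      filter_upwards [cmap_coe _ hfm 2 hfb k', cmap_coe (lam := lam) (fun _ => 1) measurable_const 1
        hone k] with x h6 h7
      have h6' : (cf k' : ℝ → K) x = (1 - g * (h x : ℂ))⁻¹ • k' := h6
      have h7' : (c1 k : ℝ → K) x = (1 : ℂ) • k := h7
      rw [h6', h7', one_smul, inner_smul_right]
    have hC : ‖(a : ℂ) * g‖ * ‖cf‖ < 1 := by
      have h3 : ‖cf‖ ≤ 2 := cmap_norm _ _ _ _
      have h4 : ‖(a : ℂ) * g‖ ≤ a * (2 * (a + c + 1))⁻¹ := by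
        rw [norm_mul, Complex.norm_real, Real.norm_of_nonneg (Real.sqrt_nonneg b)]
        exact mul_le_mul_of_nonneg_left hg2.le (Real.sqrt_nonneg b)
      calc ‖(a : ℂ) * g‖ * ‖cf‖ ≤ (a * (2 * (a + c + 1))⁻¹) * 2 :=
            mul_le_mul h4 h3 (norm_nonneg _) (by positivity)
        _ = a / (a + c + 1) := by field_simp
        _ < 1 := by rw [div_lt_one (by positivity)]; linarith
    obtain ⟨Psi, hP1, hP2⟩ := resolvent_vec U M c1 cf a g (∫ x, (1 - g * (h x : ℂ))⁻¹ ∂lam)
      (eb 0) hOm hU hg0 hA hB hC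
    have h3 := hres ((b : ℂ) * g * (∫ x, (1 - g * (h x : ℂ))⁻¹ ∂lam) + 1 / g) Psi hg1
      (by rw [← ha2]; exact hP1)
    rw [hP2] at h3
    refine Eq.trans ?_ h3
    unfold cauchyT
    rw [integral_map hmeas.aemeasurable (Measurable.aestronglyMeasurable (by fun_prop))]
    apply integral_congr_ae
    refine Eventually.of_forall fun x => ?_
    simp only
    congr 1
    push_cast
    ring

end Pool.Agent.R767.FM
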