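import Mathlib
import Pool.Agent.Helper509.Semi
import Pool.Agent.R767.FM.Mult
import Pool.Agent.R767.FM.Defs

/-!
The two explicit families.
-/

set_option autoImplicit false

open MeasureTheory Filter Topology

namespace Pool.Agent.R767.FM

open Pool.Agent.Helper509.SphDefs Pool.Agent.Helper509.Semi

theorem ae_abs_le_two : ∀ᵐ s ∂semicircle, |s| ≤ 2 := by
  have h : ∀ᵐ s ∂semicircle, s ∈ Set.Icc (-2 : ℝ) 2 := semicircle_support
  filter_upwards [h] with s hs
  exact abs_le.2 hs

theorem lower {v : ℂ} (hv : 3 ≤ ‖v‖) {s : ℝ} (hs : |s| ≤ 2) : 1 ≤ ‖v - s‖ := by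
  have := norm_sub_norm_le v (s : ℂ)
  rw [Complex.norm_real, Real.norm_eq_abs] at this
  linarith

theorem lower' {v : ℂ} (hv : 3 ≤ ‖v‖) {s : ℝ} (hs : |s| ≤ 2) : 1 ≤ ‖v + s‖ := by
  have h : ‖v + s‖ = ‖v - ((-s : ℝ) : ℂ)‖ := by push_cast; rw [sub_neg_eq_add]
  rw [h]
  exact lower hv (by rwa [abs_neg])

theorem integrable_res {v : ℂ} (hv : 3 ≤ ‖v‖) :
    Integrable (fun s : ℝ => (v - (s : ℂ))⁻¹) semicircle := by
  refine Integrable.of_bound (C := 1) (Measurable.aestronglyMeasurable (by fun_prop)) ?_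
  filter_upwards [ae_abs_le_two] with s hs
  rw [norm_inv]
  exact inv_le_one_of_one_le₀ (lower hv hs)

theorem norm_joukowski {p : ℂ} (hp0 : p ≠ 0) (hp : ‖p‖ ≤ 7/25) : 3 ≤ ‖p + 1 / p‖ := by
  have h1 := norm_sub_norm_le (1 / p) (-p)
  rw [norm_neg, sub_neg_eq_add, add_comm (1 / p), norm_div, norm_one] at h1
  have h2 : 0 < ‖p‖ := norm_pos_iff.2 hp0
  have h3 : (25 / 7 : ℝ) ≤ 1 / ‖p‖ := by
    rw [le_div_iff₀ h2]; linarith
  linarith

/-- first law: `w ∫ 1 / (1 - w (1 - s²)) = X` for `w = X (1 + X) / (1 + X + X²)` -/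
theorem law1 {X : ℂ} (hX0 : X ≠ 0) (hX : ‖X‖ ≤ 1 / 16) :
    (X * (1 + X) / (1 + X + X ^ 2)) *
      ∫ s, (1 - (X * (1 + X) / (1 + X + X ^ 2)) * ((1 - s ^ 2 : ℝ) : ℂ))⁻¹ ∂semicircle = X := by
  have h1X : 15 / 16 ≤ ‖1 + X‖ := by
    have := norm_sub_norm_le (1 : ℂ) (-X)
    rw [norm_neg, norm_one, sub_neg_eq_add] at this
    linarith
  have h1X0 : 1 + X ≠ 0 := by
    intro h; rw [h, norm_zero] at h1X; norm_num at h1X
  have hq0 : 1 + X + X ^ 2 ≠ 0 := by
    intro h
    have h2 : 1 + X = -X ^ 2 := by linear_combination h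
    rw [h2, norm_neg, norm_pow] at h1X
    have : ‖X‖ ^ 2 ≤ (1 / 16) ^ 2 := pow_le_pow_left₀ (norm_nonneg _) hX 2
    norm_num at this
    linarith
  obtain ⟨p, hp⟩ := IsAlgClosed.exists_pow_nat_eq (-X / (1 + X)) (n := 2) (by norm_num)
  have hp0 : p ≠ 0 := by
    intro h
    rw [h, zero_pow two_ne_zero] at hp
    have := hp.symm
    rw [div_eq_zero_iff] at this
    rcases this with h | h
    · exact hX0 (neg_eq_zero.1 h)
    · exact h1X0 h
  have hpn : ‖p‖ ^ 2 ≤ 1 / 15 := by
    rw [← norm_pow, hp, norm_div, norm_neg, div_le_iff₀ (by linarith)]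
    linarith
  have hpn2 : ‖p‖ ≤ 7 / 25 := by
    by_contra h
    push Not at h
    nlinarith
  set v := p + 1 / p with hv
  have hvn : 3 ≤ ‖v‖ := norm_joukowski hp0 hpn2
  have hv0 : v ≠ 0 := by
    intro h; rw [h, norm_zero] at hvn; linarith
  have hG1 : cauchyT semicircle v = p := cauchy_semicircle hp0 (by linarith)
  have hG2 : cauchyT semicircle (-v) = -p := by
    have := cauchy_semicircle (z := -p) (neg_ne_zero.2 hp0) (by rw [norm_neg]; linarith)
    rw [← this]
    congr 1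
    rw [hv]
    field_simp
    ring
  have hX2 : X = -p ^ 2 / (1 + p ^ 2) := by
    have h3 : 1 + p ^ 2 = 1 / (1 + X) := by
      rw [hp]; field_simp; ring
    rw [h3, hp]
    field_simp
  set w := X * (1 + X) / (1 + X + X ^ 2) with hw
  have hw0 : w ≠ 0 := div_ne_zero (mul_ne_zero hX0 h1X0) hq0
  have hkey : 1 - w = -w * v ^ 2 := by
    have h4 : v ^ 2 = -1 / (X * (1 + X)) := by
      have h5 : v ^ 2 = p ^ 2 + 2 + 1 / p ^ 2 := by
        rw [hv]; field_simp; ring
      rw [h5, hp]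
      field_simp
      ring
    rw [h4, hw]
    field_simp
    ring
  have hint1 := integrable_res hvn
  have hint2 : Integrable (fun s : ℝ => (-v - (s : ℂ))⁻¹) semicircle :=
    integrable_res (by rw [norm_neg]; exact hvn)
  have hI : ∫ s, (1 - w * ((1 - s ^ 2 : ℝ) : ℂ))⁻¹ ∂semicircle =
      -(1 / (2 * v * w)) * (cauchyT semicircle v - cauchyT semicircle (-v)) := by
    unfold cauchyT
    rw [← integral_sub hint1 hint2, ← integral_const_mul]
    apply integral_congr_ae
    filter_upwards [ae_abs_le_two] with s hs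
    have h6 : v - (s : ℂ) ≠ 0 := by
      intro h
      have := lower hvn hs
      rw [h, norm_zero] at this
      linarith
    have h7 : v + (s : ℂ) ≠ 0 := by
      intro h
      have := lower' hvn hs
      rw [h, norm_zero] at this
      linarith
    have h8 : 1 - w * ((1 - s ^ 2 : ℝ) : ℂ) = -w * ((v - s) * (v + s)) := by
      push_cast
      linear_combination hkey
    have h9 : -v - (s : ℂ) = -(v + s) := by ring
    rw [h8, h9, inv_neg, sub_neg_eq_add]
    field_simp
    ring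
  rw [hI, hG1, hG2]
  have h10 : v = (p ^ 2 + 1) / p := by rw [hv]; field_simp
  have h11 : 1 + p ^ 2 ≠ 0 := by
    intro h
    apply hv0
    rw [h10, add_comm, h, zero_div]
  rw [hX2, h10]
  have h12 : p ^ 2 + 1 ≠ 0 := by rwa [add_comm]
  field_simp
  ring

theorem integral_id_semicircle : ∫ s : ℝ, (s : ℂ) ∂semicircle = 0 := by
  rw [integral_semicircle]
  have h1 := intervalIntegral.integral_comp_neg (a := (-2 : ℝ)) (b := 2)
    (fun x : ℝ => ((2 * Real.pi)⁻¹ * √(4 - x ^ 2)) • (x : ℂ))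
  rw [neg_neg] at h1
  have h2 : ∀ x : ℝ, ((2 * Real.pi)⁻¹ * √(4 - (-x) ^ 2)) • (((-x : ℝ)) : ℂ) =
      -(((2 * Real.pi)⁻¹ * √(4 - x ^ 2)) • (x : ℂ)) := by
    intro x
    rw [neg_sq]
    push_cast
    rw [smul_neg]
  simp only [h2] at h1
  rw [intervalIntegral.integral_neg] at h1
  have h3 := self_eq_neg.1 h1.symm
  exact h3

/-- the semicircle law with density `1 + s / 2` -/
noncomputable def lam2 : Measure ℝ := semicircle.withDensity (fun s => ENNReal.ofReal (1 + s / 2))

theorem integral_lam2 (φ : ℝ → ℂ) :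
    ∫ s, φ s ∂lam2 = ∫ s, ((1 + s / 2 : ℝ) : ℂ) * φ s ∂semicircle := by
  unfold lam2
  rw [integral_withDensity_eq_integral_toReal_smul (by fun_prop)
    (Eventually.of_forall fun _ => ENNReal.ofReal_lt_top)]
  apply integral_congr_ae
  filter_upwards [ae_abs_le_two] with s hs
  have h1 := (abs_le.1 hs).1
  rw [ENNReal.toReal_ofReal (by linarith), Complex.real_smul]

theorem integrable_id_semicircle : Integrable (fun s : ℝ => s) semicircle := by
  refine Integrable.of_bound (C := 2) (Measurable.aestronglyMeasurable (by fun_prop)) ?_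
  filter_upwards [ae_abs_le_two] with s hs
  exact hs

instance : IsProbabilityMeasure lam2 := by
  constructor
  unfold lam2
  rw [withDensity_apply _ MeasurableSet.univ, Measure.restrict_univ]
  have hint : Integrable (fun s : ℝ => 1 + s / 2) semicircle :=
    (integrable_const 1).add (integrable_id_semicircle.div_const 2)
  rw [← ofReal_integral_eq_lintegral_ofReal hint]
  · have h1 : ∫ s : ℝ, (1 + s / 2) ∂semicircle = 1 := by
      rw [integral_add (integrable_const 1) (integrable_id_semicircle.div_const 2),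
        integral_div]
      have h2 : ∫ s : ℝ, s ∂semicircle = 0 := by
        have h3 := integral_id_semicircle
        rw [integral_complex_ofReal] at h3
        exact_mod_cast h3
      rw [h2]
      simp
    rw [h1, ENNReal.ofReal_one]
  · filter_upwards [ae_abs_le_two] with s hs
    have h1 := (abs_le.1 hs).1
    simp only [Pi.zero_apply]
    linarith

theorem ae_lam2 : ∀ᵐ s ∂lam2, |s| ≤ 2 :=
  (withDensity_absolutelyContinuous _ _).ae_le ae_abs_le_two

/-- second law: for `u = X / (k (1 + X + X²))`,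
`2 k³ u ∫ 1 / (1 - u k (1 + s)) dlam2 = k² ((1 + X)² - 1)` -/
theorem law2 {k : ℝ} (hk : 0 < k) {X : ℂ} (hX0 : X ≠ 0) (hX : ‖X‖ ≤ 1 / 16) :
    ((2 * k ^ 3 : ℝ) : ℂ) * (X / (k * (1 + X + X ^ 2))) *
      ∫ s, (1 - (X / (k * (1 + X + X ^ 2))) * ((k * (1 + s) : ℝ) : ℂ))⁻¹ ∂lam2 =
      k ^ 2 * ((1 + X) ^ 2 - 1) := by
  have hq0 : 1 + X + X ^ 2 ≠ 0 := by
    intro h
    have h1X : 15 / 16 ≤ ‖1 + X‖ := by
      have := norm_sub_norm_le (1 : ℂ) (-X)
      rw [norm_neg, norm_one, sub_neg_eq_add] at this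
      linarith
    have h2 : 1 + X = -X ^ 2 := by linear_combination h
    rw [h2, norm_neg, norm_pow] at h1X
    have : ‖X‖ ^ 2 ≤ (1 / 16) ^ 2 := pow_le_pow_left₀ (norm_nonneg _) hX 2
    norm_num at this
    linarith
  have hkc : (k : ℂ) ≠ 0 := Complex.ofReal_ne_zero.2 hk.ne'
  set v := X + 1 / X with hv
  have hvn : 3 ≤ ‖v‖ := norm_joukowski hX0 (by linarith)
  have hG : cauchyT semicircle v = X := cauchy_semicircle hX0 (by linarith)
  have hint := integrable_res hvn
  rw [integral_lam2]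
  have hI : ∫ s, ((1 + s / 2 : ℝ) : ℂ) * (1 - (X / (k * (1 + X + X ^ 2))) *
      ((k * (1 + s) : ℝ) : ℂ))⁻¹ ∂semicircle =
      ((1 + X + X ^ 2) / (2 * X)) * ((v + 2) * cauchyT semicircle v - 1) := by
    have h0 : ((v + 2) * cauchyT semicircle v - 1) =
        ∫ s : ℝ, ((v + 2) * (v - (s : ℂ))⁻¹ - 1) ∂semicircle := by
      rw [integral_sub (hint.const_mul _) (integrable_const 1), integral_const_mul]
      simp [cauchyT]
    rw [h0, ← integral_const_mul]
    apply integral_congr_ae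
    filter_upwards [ae_abs_le_two] with s hs
    have h6 : v - (s : ℂ) ≠ 0 := by
      intro h
      have := lower hvn hs
      rw [h, norm_zero] at this
      linarith
    have h8 : 1 - (X / (k * (1 + X + X ^ 2))) * ((k * (1 + s) : ℝ) : ℂ) =
        (X / (1 + X + X ^ 2)) * (v - s) := by
      rw [hv]
      push_cast
      field_simp
      ring
    rw [h8, mul_inv]
    push_cast
    field_simp
    ring
  rw [hI, hG, hv]
  push_cast
  field_simp
  ring

end Pool.Agent.R767.FM
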