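import Mathlib
import Pool.Agent.R767.FM.Defs

/-!
From the R-transform to the S-transform, and the moments from the R-transform.
-/

set_option autoImplicit false

open MeasureTheory Filter Topology

namespace Pool.Agent.R767.FM

open Pool.Agent.Helper509.SphDefs

theorem ae_bound {μ : Measure ℝ} (hμ : CompactProb μ) : ∃ C : ℝ, 0 ≤ C ∧ ∀ᵐ x ∂μ, |x| ≤ C := by
  obtain ⟨_, C, hC⟩ := hμ
  refine ⟨|C|, abs_nonneg _, ?_⟩
  have h : ∀ᵐ x ∂μ, x ∈ Set.Icc (-C) C := hC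
  filter_upwards [h] with x hx
  exact (abs_le.2 hx).trans (le_abs_self C)

theorem small {f : ℂ → ℂ} (h : Tendsto f (𝓝 0) (𝓝 0)) {ε : ℝ} (hε : 0 < ε) :
    ∀ᶠ g in 𝓝 (0 : ℂ), ‖f g‖ < ε := by
  have h1 := h.norm
  rw [norm_zero] at h1
  exact h1.eventually (gt_mem_nhds hε)

theorem tendsto_div_one {f D : ℂ → ℂ} (h : Tendsto f (𝓝 (0 : ℂ)) (𝓝 0))
    (hD : Tendsto D (𝓝 (0 : ℂ)) (𝓝 1)) : Tendsto (fun y => f y / D y) (𝓝 (0 : ℂ)) (𝓝 0) := by
  have := h.div hD one_ne_zero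
  rw [zero_div] at this
  exact this

/-- If `S(y) R(y S(y)) = 1` near `0`, then `S` is the S-transform. -/
theorem isSTransform_of_R {μ : Measure ℝ} (hμ : CompactProb μ) {R S : ℂ → ℂ}
    (hR : IsRTransform μ R) (hS : AnalyticAt ℂ S 0) (hS0 : S 0 ≠ 0)
    (hRS : ∀ᶠ y in 𝓝 (0 : ℂ), S y * R (y * S y) = 1) : IsSTransform μ S := by
  refine ⟨hS, ?_⟩
  obtain ⟨C, hC0, hC⟩ := ae_bound hμ
  have hprob : IsProbabilityMeasure μ := hμ.1
  have hSne : ∀ᶠ y in 𝓝 (0 : ℂ), S y ≠ 0 := hS.continuousAt.eventually_ne hS0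
  have hlim : Tendsto (fun y => y * S y) (𝓝 (0 : ℂ)) (𝓝 0) := by
    have : ContinuousAt (fun y => y * S y) 0 := continuousAt_id.mul hS.continuousAt
    simpa [ContinuousAt] using this.tendsto
  have h1 := hR.2
  rw [eventually_nhdsWithin_iff] at h1
  have h2 := hlim.eventually h1
  have hlim2 : Tendsto (fun y => y * S y / (1 + y)) (𝓝 (0 : ℂ)) (𝓝 0) := by
    have h3 : Tendsto (fun y : ℂ => 1 + y) (𝓝 0) (𝓝 1) := by
      have : Continuous (fun y : ℂ => 1 + y) := by fun_prop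
      simpa using this.tendsto 0
    exact tendsto_div_one hlim h3
  have h4 : ∀ᶠ y in 𝓝 (0 : ℂ), ‖y * S y / (1 + y)‖ < (C + 1)⁻¹ := small hlim2 (by positivity)
  have h5 : ∀ᶠ y in 𝓝 (0 : ℂ), (1 + y) ≠ 0 := by
    have : ContinuousAt (fun y : ℂ => 1 + y) 0 := by fun_prop
    exact this.eventually_ne (by norm_num)
  filter_upwards [hSne, hRS, h2, h4, h5] with y hy1 hy2 hy3 hy4 hy5
  by_cases hy : y = 0
  · subst hy
    simp [psiT]
  have hw : y * S y ≠ 0 := mul_ne_zero hy hy1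
  have hG := hy3 hw
  set z := y * S y / (1 + y) with hz
  have hz0 : z ≠ 0 := div_ne_zero hw hy5
  have hζ : R (y * S y) + 1 / (y * S y) = 1 / z := by
    have h6 : R (y * S y) = 1 / S y := by
      field_simp
      linear_combination hy2
    rw [h6, hz]
    field_simp
    ring
  rw [hζ] at hG
  have hne : ∀ x : ℝ, |x| ≤ C → 1 - z * (x : ℂ) ≠ 0 := by
    intro x hx h0
    have h7 : ‖z * (x : ℂ)‖ < 1 := by
      rw [norm_mul, Complex.norm_real, Real.norm_eq_abs]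
      calc ‖z‖ * |x| ≤ ‖z‖ * (C + 1) :=
            mul_le_mul_of_nonneg_left (by linarith) (norm_nonneg _)
        _ < (C + 1)⁻¹ * (C + 1) := mul_lt_mul_of_pos_right hy4 (by positivity)
        _ = 1 := by field_simp
    rw [← sub_eq_zero.1 h0, norm_one] at h7
    exact lt_irrefl _ h7
  have hint : Integrable (fun x : ℝ => (1 / z - (x : ℂ))⁻¹) μ := by
    by_contra hni
    have : cauchyT μ (1 / z) = 0 := integral_undef hni
    rw [this] at hG
    exact hw hG.symm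
  have h8 : psiT μ z = (1 / z) * cauchyT μ (1 / z) - 1 := by
    have h9 : (1 / z) * cauchyT μ (1 / z) - 1 =
        ∫ x : ℝ, ((1 / z) * (1 / z - (x : ℂ))⁻¹ - 1) ∂μ := by
      rw [integral_sub (hint.const_mul _) (integrable_const 1), integral_const_mul]
      simp [cauchyT]
    rw [h9]
    unfold psiT
    apply integral_congr_ae
    filter_upwards [hC] with x hx
    have h10 := hne x hx
    have h11 : 1 / z - (x : ℂ) = (1 - z * x) / z := by field_simp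
    rw [h11]
    field_simp
    ring
  rw [h8, hG, hz]
  field_simp
  ring

/-- bounded near `0` (punctured) -/
def Bd (f : ℂ → ℂ) : Prop := ∃ C : ℝ, ∀ᶠ g in 𝓝[≠] (0 : ℂ), ‖f g‖ ≤ C

theorem Bd.add {f g : ℂ → ℂ} (hf : Bd f) (hg : Bd g) : Bd (fun x => f x + g x) := by
  obtain ⟨C, hC⟩ := hf
  obtain ⟨D, hD⟩ := hg
  refine ⟨C + D, ?_⟩
  filter_upwards [hC, hD] with x h1 h2
  exact (norm_add_le _ _).trans (add_le_add h1 h2)

theorem Bd.neg {f : ℂ → ℂ} (hf : Bd f) : Bd (fun x => - f x) := by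
  obtain ⟨C, hC⟩ := hf
  refine ⟨C, ?_⟩
  filter_upwards [hC] with x h1
  rwa [norm_neg]

theorem Bd.sub {f g : ℂ → ℂ} (hf : Bd f) (hg : Bd g) : Bd (fun x => f x - g x) := by
  simpa [sub_eq_add_neg] using hf.add hg.neg

theorem Bd.mul {f g : ℂ → ℂ} (hf : Bd f) (hg : Bd g) : Bd (fun x => f x * g x) := by
  obtain ⟨C, hC⟩ := hf
  obtain ⟨D, hD⟩ := hg
  refine ⟨C * D, ?_⟩
  filter_upwards [hC, hD] with x h1 h2
  rw [norm_mul]
  exact mul_le_mul h1 h2 (norm_nonneg _) ((norm_nonneg _).trans h1)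

theorem Bd.pow {f : ℂ → ℂ} (hf : Bd f) (n : ℕ) : Bd (fun x => f x ^ n) := by
  obtain ⟨C, hC⟩ := hf
  refine ⟨C ^ n, ?_⟩
  filter_upwards [hC] with x h1
  rw [norm_pow]
  exact pow_le_pow_left₀ (norm_nonneg _) h1 n

theorem Bd.const (c : ℂ) : Bd (fun _ => c) := ⟨‖c‖, Eventually.of_forall fun _ => le_rfl⟩

theorem Bd.id : Bd (fun x => x) := by
  refine ⟨1, ?_⟩
  have h : ∀ᶠ g in 𝓝 (0 : ℂ), ‖g‖ < 1 := by
    have h3 : Tendsto (fun g : ℂ => ‖g‖) (𝓝 0) (𝓝 0) := by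
      simpa using (continuous_norm (E := ℂ)).tendsto 0
    exact h3.eventually (gt_mem_nhds one_pos)
  exact (h.filter_mono nhdsWithin_le_nhds).mono fun g hg => hg.le

theorem Bd.of_continuousAt {f : ℂ → ℂ} (hf : ContinuousAt f 0) : Bd f := by
  refine ⟨‖f 0‖ + 1, ?_⟩
  have h3 : ∀ᶠ g in 𝓝 (0 : ℂ), ‖f g‖ < ‖f 0‖ + 1 :=
    hf.norm.eventually (gt_mem_nhds (lt_add_one _))
  exact (h3.filter_mono nhdsWithin_le_nhds).mono fun g hg => hg.le

/-- If `c + g B(g) = 0` near `0` with `B` bounded, then `c = 0`. -/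
theorem eq_zero_of_bd {c : ℂ} {B : ℂ → ℂ} (hB : Bd B)
    (h : ∀ᶠ g in 𝓝[≠] (0 : ℂ), c + g * B g = 0) : c = 0 := by
  obtain ⟨C, hC⟩ := hB
  have h1 : ∀ᶠ g in 𝓝[≠] (0 : ℂ), ‖c‖ ≤ ‖g‖ * C := by
    filter_upwards [h, hC] with g h2 h3
    have h4 : c = -(g * B g) := by linear_combination h2
    rw [h4, norm_neg, norm_mul]
    exact mul_le_mul_of_nonneg_left h3 (norm_nonneg _)
  have h5 : Tendsto (fun g : ℂ => ‖g‖ * C) (𝓝[≠] 0) (𝓝 0) := by
    have : Continuous (fun g : ℂ => ‖g‖ * C) := by fun_prop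
    have h6 := this.tendsto 0
    rw [norm_zero, zero_mul] at h6
    exact h6.mono_left nhdsWithin_le_nhds
  have h7 : ‖c‖ ≤ 0 := ge_of_tendsto h5 h1
  exact norm_le_zero_iff.1 h7

/-- one step of division -/
theorem step_of_bd {c : ℂ} {B : ℂ → ℂ} (hB : Bd B)
    (h : ∀ᶠ g in 𝓝[≠] (0 : ℂ), c + g * B g = 0) :
    c = 0 ∧ ∀ᶠ g in 𝓝[≠] (0 : ℂ), B g = 0 := by
  have hc := eq_zero_of_bd hB h
  refine ⟨hc, ?_⟩
  filter_upwards [h, self_mem_nhdsWithin] with g h1 h2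
  rw [hc, zero_add] at h1
  exact (mul_eq_zero.1 h1).resolve_left h2

/-- the successive division -/
theorem divide {R R1 R2 R3 E : ℂ → ℂ} {r0 r1 r2 M1 M2 M3 : ℂ} (bR : Bd R) (bR1 : Bd R1)
    (bR2 : Bd R2) (bR3 : Bd R3) (bE : Bd E)
    (h0 : ∀ᶠ g in 𝓝[≠] (0 : ℂ), R g = r0 + g * R1 g)
    (h1 : ∀ᶠ g in 𝓝[≠] (0 : ℂ), R1 g = r1 + g * R2 g)
    (h2 : ∀ᶠ g in 𝓝[≠] (0 : ℂ), R2 g = r2 + g * R3 g)
    (hmain : ∀ᶠ g in 𝓝[≠] (0 : ℂ), R g * (1 + g * R g) ^ 3 - M1 * (1 + g * R g) ^ 2 -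
      M2 * g * (1 + g * R g) - M3 * g ^ 2 - g ^ 3 * E g = 0) :
    M1 = r0 ∧ M2 = r1 + r0 ^ 2 ∧ M3 = r2 + 3 * r0 * r1 + r0 ^ 3 := by
  have bB0 : Bd (fun g => R1 g + R g * (3 * R g + 3 * g * R g ^ 2 +
      g ^ 2 * R g ^ 3) - M1 * (2 * R g + g * R g ^ 2) - M2 * (1 + g * R g) - M3 * g - g ^ 2 * E g) :=
    ((((bR1.add (bR.mul ((((Bd.const 3).mul bR).add (((Bd.const 3).mul Bd.id).mul
      (bR.pow 2))).add ((Bd.id.pow 2).mul (bR.pow 3))))).sub ((Bd.const M1).mul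
      (((Bd.const 2).mul bR).add (Bd.id.mul (bR.pow 2))))).sub ((Bd.const M2).mul
      ((Bd.const 1).add (Bd.id.mul bR)))).sub ((Bd.const M3).mul Bd.id)).sub ((Bd.id.pow 2).mul bE)
  have bB1 : Bd (fun g => R2 g + 3 * R1 g * (R g + r0) + 3 * R g ^ 3 + g * R g ^ 4 -
      2 * M1 * R1 g - M1 * R g ^ 2 - M2 * R g - M3 - g * E g) :=
    (((((((bR2.add (((Bd.const 3).mul bR1).mul (bR.add (Bd.const r0)))).add
      ((Bd.const 3).mul (bR.pow 3))).add (Bd.id.mul (bR.pow 4))).sub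
      ((Bd.const (2 * M1)).mul bR1)).sub ((Bd.const M1).mul (bR.pow 2))).sub
      ((Bd.const M2).mul bR)).sub (Bd.const M3)).sub (Bd.id.mul bE)
  have bB2 : Bd (fun g => R3 g + 3 * (R2 g * (R g + r0) + r1 * R1 g) +
      3 * R1 g * (R g ^ 2 + R g * r0 + r0 ^ 2) + R g ^ 4 - 2 * M1 * R2 g -
      M1 * R1 g * (R g + r0) - M2 * R1 g - E g) :=
    (((((((bR3.add ((Bd.const 3).mul ((bR2.mul (bR.add (Bd.const r0))).add
      ((Bd.const r1).mul bR1)))).add (((Bd.const 3).mul bR1).mul (((bR.pow 2).add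
      (bR.mul (Bd.const r0))).add (Bd.const (r0 ^ 2))))).add (bR.pow 4)).sub
      ((Bd.const (2 * M1)).mul bR2)).sub (((Bd.const M1).mul bR1).mul
      (bR.add (Bd.const r0)))).sub ((Bd.const M2).mul bR1)).sub bE)
  obtain ⟨c0, s0⟩ := step_of_bd (c := r0 - M1) bB0 (by
    filter_upwards [hmain, h0] with g t1 t2
    linear_combination t1 - t2)
  obtain ⟨c1, s1⟩ := step_of_bd (c := r1 + 3 * r0 ^ 2 - 2 * M1 * r0 - M2) bB1 (by
    filter_upwards [s0, h0, h1] with g t1 t2 t3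
    linear_combination t1 - t3 - 3 * (R g + r0) * t2 + 2 * M1 * t2)
  obtain ⟨c2, _⟩ := step_of_bd (c := r2 + 6 * r0 * r1 + 3 * r0 ^ 3 - 2 * M1 * r1 -
      M1 * r0 ^ 2 - M2 * r0 - M3) bB2 (by
    filter_upwards [s1, h0, h1, h2] with g t1 t2 t3 t4
    linear_combination t1 - t4 - 3 * ((R g + r0) * t3 + r1 * t2) -
      3 * (R g ^ 2 + R g * r0 + r0 ^ 2) * t2 + 2 * M1 * t3 + M1 * (R g + r0) * t2 + M2 * t2)
  have hm1 : M1 = r0 := by linear_combination -c0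
  have hm2 : M2 = r1 + r0 ^ 2 := by
    rw [hm1] at c1; linear_combination -c1
  refine ⟨hm1, hm2, ?_⟩
  rw [hm1, hm2] at c2
  linear_combination -c2

/-- first three moments from the R-transform -/
theorem moments {μ : Measure ℝ} (hμ : CompactProb μ) {R R1 R2 R3 : ℂ → ℂ} {r0 r1 r2 : ℂ}
    (hR : IsRTransform μ R)
    (h0 : ∀ᶠ g in 𝓝[≠] (0 : ℂ), R g = r0 + g * R1 g)
    (h1 : ∀ᶠ g in 𝓝[≠] (0 : ℂ), R1 g = r1 + g * R2 g)
    (h2 : ∀ᶠ g in 𝓝[≠] (0 : ℂ), R2 g = r2 + g * R3 g) (hR3 : Bd R3) :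
    (∫ x : ℝ, (x : ℂ) ∂μ) = r0 ∧ (∫ x : ℝ, (x : ℂ) ^ 2 ∂μ) = r1 + r0 ^ 2 ∧
      (∫ x : ℝ, (x : ℂ) ^ 3 ∂μ) = r2 + 3 * r0 * r1 + r0 ^ 3 := by
  obtain ⟨C, hC0, hC⟩ := ae_bound hμ
  have hprob : IsProbabilityMeasure μ := hμ.1
  have bR2 : Bd R2 := by
    obtain ⟨D, hD⟩ := (Bd.const r2).add (Bd.id.mul hR3)
    refine ⟨D, ?_⟩
    filter_upwards [h2, hD] with g h3 h4
    rwa [h3]
  have bR1 : Bd R1 := by
    obtain ⟨D, hD⟩ := (Bd.const r1).add (Bd.id.mul bR2)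
    refine ⟨D, ?_⟩
    filter_upwards [h1, hD] with g h3 h4
    rwa [h3]
  have bR : Bd R := by
    obtain ⟨D, hD⟩ := (Bd.const r0).add (Bd.id.mul bR1)
    refine ⟨D, ?_⟩
    filter_upwards [h0, hD] with g h3 h4
    rwa [h3]
  set M1 := (∫ x : ℝ, (x : ℂ) ∂μ) with hM1
  set M2 := (∫ x : ℝ, (x : ℂ) ^ 2 ∂μ) with hM2
  set M3 := (∫ x : ℝ, (x : ℂ) ^ 3 ∂μ) with hM3
  have hRc : ContinuousAt R 0 := hR.1.continuousAt
  have hRb : Tendsto (fun g => g * R g) (𝓝 (0 : ℂ)) (𝓝 0) := by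
    have : ContinuousAt (fun y => y * R y) 0 := continuousAt_id.mul hRc
    simpa [ContinuousAt] using this.tendsto
  -- the remainder
  set E : ℂ → ℂ := fun g => ∫ x : ℝ, (x : ℂ) ^ 4 * (1 - g / (1 + g * R g) * (x : ℂ))⁻¹ ∂μ with hE
  have hz : Tendsto (fun g => g / (1 + g * R g)) (𝓝 (0 : ℂ)) (𝓝 0) := by
    have h3 : Tendsto (fun g : ℂ => 1 + g * R g) (𝓝 0) (𝓝 (1 + 0)) := tendsto_const_nhds.add hRb
    rw [add_zero] at h3
    exact tendsto_div_one tendsto_id h3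
  have hzs : ∀ᶠ g in 𝓝[≠] (0 : ℂ), ‖g / (1 + g * R g)‖ < (2 * (C + 1))⁻¹ :=
    (small hz (by positivity)).filter_mono nhdsWithin_le_nhds
  have hlow : ∀ z : ℂ, ‖z‖ < (2 * (C + 1))⁻¹ → ∀ x : ℝ, |x| ≤ C → 1 / 2 ≤ ‖1 - z * (x : ℂ)‖ := by
    intro z hz x hx
    have h2 : ‖z * (x : ℂ)‖ ≤ 1 / 2 := by
      rw [norm_mul, Complex.norm_real, Real.norm_eq_abs]
      calc ‖z‖ * |x| ≤ (2 * (C + 1))⁻¹ * (C + 1) :=
            mul_le_mul hz.le (by linarith) (abs_nonneg _) (by positivity)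
        _ = 1 / 2 := by field_simp
    have h3 := norm_sub_norm_le (1 : ℂ) (z * (x : ℂ))
    rw [norm_one] at h3
    linarith
  have hEb : Bd E := by
    refine ⟨C ^ 4 * 2, ?_⟩
    filter_upwards [hzs] with g hg
    rw [hE]
    refine (norm_integral_le_of_norm_le_const (C := C ^ 4 * 2) ?_).trans (by simp)
    filter_upwards [hC] with x hx
    rw [norm_mul, norm_pow, norm_inv, Complex.norm_real, Real.norm_eq_abs]
    have h5 := hlow _ hg x hx
    have h6 : ‖1 - g / (1 + g * R g) * (x : ℂ)‖⁻¹ ≤ 2 := by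
      calc _ ≤ (1 / 2 : ℝ)⁻¹ := inv_anti₀ (by norm_num) h5
        _ = 2 := by norm_num
    gcongr
  have h1ne : ∀ᶠ g in 𝓝[≠] (0 : ℂ), (1 + g * R g) ≠ 0 := by
    have h3 : ContinuousAt (fun g : ℂ => 1 + g * R g) 0 :=
      continuousAt_const.add (continuousAt_id.mul hRc)
    exact (h3.eventually_ne (by simp)).filter_mono nhdsWithin_le_nhds
  set E' : ℂ → ℂ := fun g => E g * (1 + g * R g)⁻¹ with hE'
  have hE'b : Bd E' := by
    refine hEb.mul (Bd.of_continuousAt ?_)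
    have h3 : ContinuousAt (fun g : ℂ => 1 + g * R g) 0 :=
      continuousAt_const.add (continuousAt_id.mul hRc)
    exact h3.inv₀ (by simp)
  have hmain : ∀ᶠ g in 𝓝[≠] (0 : ℂ), R g * (1 + g * R g) ^ 3 - M1 * (1 + g * R g) ^ 2 -
      M2 * g * (1 + g * R g) - M3 * g ^ 2 - g ^ 3 * E' g = 0 := by
    filter_upwards [hR.2, hzs, h1ne, self_mem_nhdsWithin] with g hg1 hg2 hg3 hg4
    have hg0 : g ≠ 0 := hg4
    set z := g / (1 + g * R g) with hzdef
    have hz0 : z ≠ 0 := div_ne_zero hg0 hg3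
    have hzeta : R g + 1 / g = 1 / z := by
      rw [hzdef]; field_simp; ring
    rw [hzeta] at hg1
    have hpow : ∀ n : ℕ, Integrable (fun x : ℝ => (x : ℂ) ^ n) μ := by
      intro n
      refine Integrable.of_bound (C := C ^ n) (Measurable.aestronglyMeasurable (by fun_prop)) ?_
      filter_upwards [hC] with x hx
      rw [norm_pow, Complex.norm_real, Real.norm_eq_abs]
      gcongr
    have hE1 : Integrable (fun x : ℝ => (x : ℂ) ^ 4 * (1 - z * (x : ℂ))⁻¹) μ := by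
      refine Integrable.of_bound (C := C ^ 4 * 2)
        (Measurable.aestronglyMeasurable (by fun_prop)) ?_
      filter_upwards [hC] with x hx
      rw [norm_mul, norm_pow, norm_inv, Complex.norm_real, Real.norm_eq_abs]
      have h5 := hlow _ hg2 x hx
      have h6 : ‖1 - z * (x : ℂ)‖⁻¹ ≤ 2 := by
        calc _ ≤ (1 / 2 : ℝ)⁻¹ := inv_anti₀ (by norm_num) h5
          _ = 2 := by norm_num
      gcongr
    have hexp : cauchyT μ (1 / z) = z * (1 + z * M1 + z ^ 2 * M2 + z ^ 3 * M3 + z ^ 4 * E g) := by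
      have e1 : (∫ x : ℝ, (1 : ℂ) ∂μ) = 1 := by simp
      have e2 : z * (1 + z * M1 + z ^ 2 * M2 + z ^ 3 * M3 + z ^ 4 * E g) =
          ∫ x : ℝ, (z * (((((1 : ℂ) + z * (x : ℂ)) + z ^ 2 * (x : ℂ) ^ 2) + z ^ 3 * (x : ℂ) ^ 3) +
            z ^ 4 * ((x : ℂ) ^ 4 * (1 - z * (x : ℂ))⁻¹))) ∂μ := by
        have p1 : Integrable (fun x : ℝ => (x : ℂ)) μ := by simpa using hpow 1
        have i1 : Integrable (fun x : ℝ => (1 : ℂ) + z * (x : ℂ)) μ :=
          (integrable_const 1).add (p1.const_mul z)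
        have i2 : Integrable (fun x : ℝ => ((1 : ℂ) + z * (x : ℂ)) + z ^ 2 * (x : ℂ) ^ 2) μ :=
          i1.add ((hpow 2).const_mul _)
        have i3 : Integrable (fun x : ℝ => (((1 : ℂ) + z * (x : ℂ)) + z ^ 2 * (x : ℂ) ^ 2) +
            z ^ 3 * (x : ℂ) ^ 3) μ := i2.add ((hpow 3).const_mul _)
        rw [integral_const_mul, integral_add i3 (hE1.const_mul _),
          integral_add i2 ((hpow 3).const_mul _), integral_add i1 ((hpow 2).const_mul _),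
          integral_add (integrable_const 1) (p1.const_mul z), integral_const_mul,
          integral_const_mul, integral_const_mul, integral_const_mul, e1]
      rw [e2]
      unfold cauchyT
      apply integral_congr_ae
      filter_upwards [hC] with x hx
      have h5 := hlow _ hg2 x hx
      have h6 : 1 - z * (x : ℂ) ≠ 0 := by
        intro h; rw [h, norm_zero] at h5; linarith
      have h7 : 1 / z - (x : ℂ) = (1 - z * x) / z := by field_simp
      rw [h7]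
      field_simp
      ring
    rw [hexp] at hg1
    have h8 : z * (1 + g * R g) = g := by rw [hzdef]; field_simp
    have h9 : 1 + z * M1 + z ^ 2 * M2 + z ^ 3 * M3 + z ^ 4 * E g = 1 + g * R g := by
      have : z * (1 + z * M1 + z ^ 2 * M2 + z ^ 3 * M3 + z ^ 4 * E g) = z * (1 + g * R g) := by
        rw [h8, hg1]
      exact mul_left_cancel₀ hz0 this
    have h10 : g * (R g * (1 + g * R g) ^ 3 - M1 * (1 + g * R g) ^ 2 -
      M2 * g * (1 + g * R g) - M3 * g ^ 2 - g ^ 3 * E' g) = 0 := by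
      have h11 : E' g = E g * (1 + g * R g)⁻¹ := rfl
      have h12 : g * R g = z * M1 + z ^ 2 * M2 + z ^ 3 * M3 + z ^ 4 * E g := by
        linear_combination -h9
      have h13 : g * (R g * (1 + g * R g) ^ 3 - M1 * (1 + g * R g) ^ 2 -
          M2 * g * (1 + g * R g) - M3 * g ^ 2 - g ^ 3 * E' g) =
          (g * R g) * (1 + g * R g) ^ 3 - g * M1 * (1 + g * R g) ^ 2 -
          M2 * g ^ 2 * (1 + g * R g) - M3 * g ^ 3 - g ^ 4 * (E g * (1 + g * R g)⁻¹) := by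
        rw [h11]; ring
      rw [h13]
      have h14 : ∀ D : ℂ, D = 1 + g * R g → (g * R g) * D ^ 3 - g * M1 * D ^ 2 -
          M2 * g ^ 2 * D - M3 * g ^ 3 - g ^ 4 * (E g * D⁻¹) = 0 := by
        intro D hD
        have hD0 : D ≠ 0 := by rw [hD]; exact hg3
        rw [h12]
        have hzD : z = g / D := by rw [hD]
        rw [hzD]
        field_simp
        ring
      exact h14 _ rfl
    exact (mul_eq_zero.1 h10).resolve_left hg0
  exact divide bR bR1 bR2 hR3 hE'b h0 h1 h2 hmain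

end Pool.Agent.R767.FM
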