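import Mathlib
import Pool.Agent.R767.FM.Laws
import Pool.Agent.R767.FM.STr

/-!
The counterexample.
-/

set_option autoImplicit false

open MeasureTheory Filter Topology

namespace Pool.Agent.R767.FM

open Pool.Agent.Helper509.SphDefs Pool.Agent.Helper509.Semi

theorem exists_law_ID (lam : Measure ℝ) [IsProbabilityMeasure lam] (h : ℝ → ℝ) (hm : Measurable h)
    (c : ℝ) (hc : ∀ᵐ x ∂lam, |h x| ≤ c) (γ b : ℝ) (hb : 0 ≤ b) (hpos : 2 * √b + c ≤ γ) :
    ∃ μ : Measure ℝ, CompactPos μ ∧ FreelyInfDiv μ ∧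
      IsRTransform μ (fun g => γ + b * g * ∫ x, (1 - g * (h x : ℂ))⁻¹ ∂lam) := by
  obtain ⟨μ, h1, h2, h3⟩ := exists_law lam h hm c hc γ b hb
  refine ⟨μ, ⟨h1, ?_⟩, ?_, h3⟩
  · refine measure_mono_null ?_ h2
    intro x hx hx2
    have := hx2.1
    have h4 : x < 0 := hx
    linarith
  · intro n hn
    obtain ⟨ν, h4, _, h5⟩ := exists_law lam h hm c hc (γ / n) (b / n) (by positivity)
    refine ⟨ν, h4, _, h5, ?_⟩
    have h6 : (fun z : ℂ => (n : ℂ) * (((γ / n : ℝ) : ℂ) + ((b / n : ℝ) : ℂ) * z *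
        ∫ x, (1 - z * (h x : ℂ))⁻¹ ∂lam)) =
        (fun g : ℂ => (γ : ℂ) + b * g * ∫ x, (1 - g * (h x : ℂ))⁻¹ ∂lam) := by
      funext z
      have hn0 : (n : ℂ) ≠ 0 := by
        have : n ≠ 0 := by omega
        exact_mod_cast this
      push_cast
      field_simp
    rw [h6]
    exact h3

theorem exists_inverse {f : ℂ → ℂ} (hf : AnalyticAt ℂ f 0) (h0 : f 0 = 0) (hd : deriv f 0 ≠ 0) :
    ∃ X : ℂ → ℂ, AnalyticAt ℂ X 0 ∧ X 0 = 0 ∧ ∀ᶠ y in 𝓝 (0 : ℂ), f (X y) = y := by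
  refine ⟨hf.hasStrictDerivAt.localInverse _ _ _ hd, ?_, ?_, ?_⟩
  · have := hf.analyticAt_localInverse hd
    rwa [h0] at this
  · have : (hf.hasStrictDerivAt.localInverse _ _ _ hd) (f 0) = 0 :=
      HasStrictFDerivAt.localInverse_apply_image ..
    rwa [h0] at this
  · have := HasStrictDerivAt.eventually_right_inverse hf.hasStrictDerivAt hd
    rwa [h0] at this

theorem factor {f : ℂ → ℂ} (hf : AnalyticAt ℂ f 0) :
    ∃ f1 : ℂ → ℂ, AnalyticAt ℂ f1 0 ∧ ∀ g, f g = f 0 + g * f1 g := by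
  refine ⟨dslope f 0, ?_, ?_⟩
  · obtain ⟨p, hp⟩ := hf
    exact hp.has_fpower_series_dslope_fslope.analyticAt
  · intro g
    have := sub_smul_dslope f 0 g
    rw [sub_zero, smul_eq_mul] at this
    rw [this]
    ring

theorem quad_ne {X : ℂ} (hX : ‖X‖ ≤ 1 / 16) : 1 + X ≠ 0 ∧ 1 + X + X ^ 2 ≠ 0 := by
  have h1X : 15 / 16 ≤ ‖1 + X‖ := by
    have := norm_sub_norm_le (1 : ℂ) (-X)
    rw [norm_neg, norm_one, sub_neg_eq_add] at this
    linarith
  constructor
  · intro h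
    rw [h, norm_zero] at h1X; norm_num at h1X
  · intro h
    have h2 : 1 + X = -X ^ 2 := by linear_combination h
    rw [h2, norm_neg, norm_pow] at h1X
    have : ‖X‖ ^ 2 ≤ (1 / 16) ^ 2 := pow_le_pow_left₀ (norm_nonneg _) hX 2
    norm_num at this
    linarith

/-- the R-transform of the first law -/
noncomputable def Rmu (k : ℝ) (g : ℂ) : ℂ :=
  k + k * g * ∫ s, (1 - g * ((1 - s ^ 2 : ℝ) : ℂ))⁻¹ ∂semicircle

/-- the R-transform of the second law -/
noncomputable def Rnu (k : ℝ) (g : ℂ) : ℂ :=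
  ((k ^ 2 : ℝ) : ℂ) + ((2 * k ^ 3 : ℝ) : ℂ) * g *
    ∫ s, (1 - g * ((k * (1 + s) : ℝ) : ℂ))⁻¹ ∂lam2

theorem Rmu_eq {k : ℝ} {X : ℂ} (hX : ‖X‖ ≤ 1 / 16) :
    Rmu k (X * (1 + X) / (1 + X + X ^ 2)) = k * (1 + X) := by
  unfold Rmu
  by_cases h0 : X = 0
  · subst h0; simp
  · have := law1 h0 hX
    rw [mul_assoc, this]
    ring

theorem Rnu_eq {k : ℝ} (hk : 0 < k) {X : ℂ} (hX : ‖X‖ ≤ 1 / 16) :
    Rnu k (X / (k * (1 + X + X ^ 2))) = k ^ 2 * (1 + X) ^ 2 := by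
  unfold Rnu
  by_cases h0 : X = 0
  · subst h0; simp
  · have := law2 hk h0 hX
    rw [this]
    push_cast
    ring

theorem ev_small {X : ℂ → ℂ} (hX : AnalyticAt ℂ X 0) (h0 : X 0 = 0) :
    ∀ᶠ y in 𝓝 (0 : ℂ), ‖X y‖ ≤ 1 / 16 := by
  have h1 : Tendsto X (𝓝 0) (𝓝 0) := by
    have := hX.continuousAt.tendsto
    rwa [h0] at this
  exact (small h1 (by norm_num)).mono fun y hy => hy.le

/-- `ν = μ ⊠ μ` -/
theorem freeMul {k : ℝ} (hk : 0 < k) {μ ν : Measure ℝ} (hμ : CompactProb μ) (hν : CompactProb ν)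
    (hRμ : IsRTransform μ (Rmu k)) (hRν : IsRTransform ν (Rnu k)) : IsFreeMulConv μ μ ν := by
  have hkc : (k : ℂ) ≠ 0 := Complex.ofReal_ne_zero.2 hk.ne'
  set q : ℂ → ℂ := fun X => k * (1 + X) ^ 2 / (1 + X + X ^ 2) with hq
  have hqa : AnalyticAt ℂ q 0 := by
    rw [hq]
    apply AnalyticAt.fun_div
    · fun_prop
    · fun_prop
    · simp
  obtain ⟨X, hXa, hX0, hXi⟩ := exists_inverse (f := fun X => X * q X) (by fun_prop) (by simp) (by
    have h1 : HasDerivAt (fun X => X * q X) (1 * q 0 + 0 * deriv q 0) 0 :=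
      (hasDerivAt_id (0 : ℂ)).mul hqa.differentiableAt.hasDerivAt
    rw [h1.deriv, hq]
    simpa using hkc)
  set S : ℂ → ℂ := fun y => 1 / (k * (1 + X y)) with hS
  have hS0 : S 0 = 1 / k := by rw [hS]; simp [hX0]
  have hSa : AnalyticAt ℂ S 0 := by
    rw [hS]
    apply AnalyticAt.fun_div
    · fun_prop
    · fun_prop
    · rw [hX0]; simpa using hkc
  have hsm := ev_small hXa hX0
  have hS1 : IsSTransform μ S := by
    refine isSTransform_of_R hμ hRμ hSa (by rw [hS0]; exact one_div_ne_zero hkc) ?_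
    filter_upwards [hXi, hsm] with y h1 h2
    obtain ⟨h3, h4⟩ := quad_ne h2
    have h6 : y * (1 + X y + X y ^ 2) = k * X y * (1 + X y) ^ 2 := by
      have e : (X y * q (X y)) * (1 + X y + X y ^ 2) = k * X y * (1 + X y) ^ 2 := by
        simp only [hq]
        field_simp
      rwa [h1] at e
    have h5 : y * S y = X y * (1 + X y) / (1 + X y + X y ^ 2) := by
      simp only [hS]
      field_simp
      linear_combination h6
    rw [h5, Rmu_eq h2, hS]
    field_simp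
  have hS2 : IsSTransform ν (fun y => S y * S y) := by
    refine isSTransform_of_R hν hRν (by fun_prop)
      (by rw [hS0]; exact mul_ne_zero (one_div_ne_zero hkc) (one_div_ne_zero hkc)) ?_
    filter_upwards [hXi, hsm] with y h1 h2
    obtain ⟨h3, h4⟩ := quad_ne h2
    have h6 : y * (1 + X y + X y ^ 2) = k * X y * (1 + X y) ^ 2 := by
      have e : (X y * q (X y)) * (1 + X y + X y ^ 2) = k * X y * (1 + X y) ^ 2 := by
        simp only [hq]
        field_simp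
      rwa [h1] at e
    have h5 : y * (S y * S y) = X y / (k * (1 + X y + X y ^ 2)) := by
      simp only [hS]
      field_simp
      linear_combination h6
    rw [h5, Rnu_eq hk h2, hS]
    field_simp
  exact ⟨S, S, hS1, hS1, hS2⟩

/-- the Taylor coefficients of `Rmu` -/
theorem coeffs {k : ℝ} {R1 R2 R3 : ℂ → ℂ} {r0 r1 r2 : ℂ}
    (h0 : ∀ g, Rmu k g = r0 + g * R1 g) (h1 : ∀ g, R1 g = r1 + g * R2 g)
    (h2 : ∀ g, R2 g = r2 + g * R3 g) (hR3 : ContinuousAt R3 0) :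
    r0 = k ∧ r1 = k ∧ r2 = 0 := by
  set s : ℂ → ℂ := fun X => (1 + X + X ^ 2)⁻¹ with hs
  have hsc : ContinuousAt s 0 := by
    rw [hs]
    apply ContinuousAt.inv₀
    · fun_prop
    · simp
  set w : ℂ → ℂ := fun X => X * (1 + X) / (1 + X + X ^ 2) with hw
  have hwc : ContinuousAt w 0 := by
    rw [hw]
    apply ContinuousAt.div
    · fun_prop
    · fun_prop
    · simp
  have hw0 : w 0 = 0 := by rw [hw]; simp
  have hR3w : ContinuousAt (fun X => R3 (w X)) 0 := by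
    apply ContinuousAt.comp (g := R3) (f := w) (x := 0) _ hwc
    rw [hw0]; exact hR3
  have hXs : ∀ᶠ X in 𝓝[≠] (0 : ℂ), ‖X‖ ≤ 1 / 16 := by
    have : ∀ᶠ X in 𝓝 (0 : ℂ), ‖X‖ < 1 / 16 := small tendsto_id (by norm_num)
    exact (this.filter_mono nhdsWithin_le_nhds).mono fun X h => h.le
  have hwx : ∀ X : ℂ, ‖X‖ ≤ 1 / 16 → w X = X * (1 - X ^ 2 * s X) := by
    intro X hX
    obtain ⟨_, h4⟩ := quad_ne hX
    simp only [hw, hs]
    field_simp
    ring
  have hR2w : ContinuousAt (fun X => R2 (w X)) 0 := by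
    have : (fun X => R2 (w X)) = fun X => r2 + w X * R3 (w X) := by funext X; rw [h2]
    rw [this]
    exact continuousAt_const.add (hwc.mul hR3w)
  have hR1w : ContinuousAt (fun X => R1 (w X)) 0 := by
    have : (fun X => R1 (w X)) = fun X => r1 + w X * R2 (w X) := by funext X; rw [h1]
    rw [this]
    exact continuousAt_const.add (hwc.mul hR2w)
  have hq1 : ContinuousAt (fun X => 1 - X ^ 2 * s X) 0 :=
    continuousAt_const.sub ((continuousAt_id.pow 2).mul hsc)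
  obtain ⟨c0, s0⟩ := step_of_bd (c := k - r0)
    (B := fun X => k - (1 - X ^ 2 * s X) * R1 (w X))
    (Bd.of_continuousAt (continuousAt_const.sub (hq1.mul hR1w))) (by
      filter_upwards [hXs] with X hX
      have e1 := Rmu_eq (k := k) hX
      have e2 := h0 (w X)
      have e3 : Rmu k (w X) = k * (1 + X) := e1
      rw [e3, hwx X hX] at e2
      rw [hwx X hX]
      linear_combination e2)
  obtain ⟨c1, s1⟩ := step_of_bd (c := k - r1)
    (B := fun X => X * s X * r1 - (1 - X ^ 2 * s X) ^ 2 * R2 (w X))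
    (Bd.of_continuousAt (((continuousAt_id.mul hsc).mul continuousAt_const).sub
      ((hq1.pow 2).mul hR2w))) (by
      filter_upwards [hXs, s0] with X hX h3
      rw [h1 (w X)] at h3
      have e4 := hwx X hX
      have e5 : w X * R2 (w X) = X * (1 - X ^ 2 * s X) * R2 (w X) := by
        conv_lhs => rw [e4]
        rw [← e4]
      linear_combination h3 + (1 - X ^ 2 * s X) * e5)
  obtain ⟨c2, _⟩ := step_of_bd (c := - r2)
    (B := fun X => s X * r1 + (2 * X * s X - X ^ 3 * s X ^ 2) * r2 -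
      (1 - X ^ 2 * s X) ^ 3 * R3 (w X))
    (Bd.of_continuousAt (((hsc.mul continuousAt_const).add
      ((((continuousAt_const.mul continuousAt_id).mul hsc).sub
        ((continuousAt_id.pow 3).mul (hsc.pow 2))).mul continuousAt_const)).sub
      ((hq1.pow 3).mul hR3w))) (by
      filter_upwards [hXs, s1] with X hX h3
      rw [h2 (w X)] at h3
      have e4 := hwx X hX
      have e5 : w X * R3 (w X) = X * (1 - X ^ 2 * s X) * R3 (w X) := by
        conv_lhs => rw [e4]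
        rw [← e4]
      linear_combination h3 + (1 - X ^ 2 * s X) ^ 2 * e5)
  refine ⟨by linear_combination -c0, by linear_combination -c1, by linear_combination -c2⟩

/-- a law on `[0, ∞)` cannot have first moments `1/2, 3/4, 7/8` -/
theorem no_law {ν : Measure ℝ} (hν : CompactPos ν) (h1 : (∫ x : ℝ, (x : ℂ) ∂ν) = 1 / 2)
    (h2 : (∫ x : ℝ, (x : ℂ) ^ 2 ∂ν) = 3 / 4) (h3 : (∫ x : ℝ, (x : ℂ) ^ 3 ∂ν) = 7 / 8) : False := by
  obtain ⟨C, hC0, hC⟩ := ae_bound hν.1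
  have hprob : IsProbabilityMeasure ν := hν.1.1
  have hpos : ∀ᵐ x ∂ν, 0 ≤ x := by
    have : ∀ᵐ x ∂ν, x ∉ Set.Iio (0 : ℝ) := measure_eq_zero_iff_ae_notMem.1 hν.2
    filter_upwards [this] with x hx
    exact not_lt.1 hx
  have hpow : ∀ n : ℕ, Integrable (fun x : ℝ => x ^ n) ν := by
    intro n
    refine Integrable.of_bound (C := C ^ n) (Measurable.aestronglyMeasurable (by fun_prop)) ?_
    filter_upwards [hC] with x hx
    rw [norm_pow, Real.norm_eq_abs]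
    gcongr
  have r1 : ∫ x : ℝ, x ∂ν = 1 / 2 := by
    rw [integral_complex_ofReal] at h1
    have : ((∫ x : ℝ, x ∂ν : ℝ) : ℂ) = ((1 / 2 : ℝ) : ℂ) := by rw [h1]; push_cast; ring
    exact_mod_cast this
  have r2 : ∫ x : ℝ, x ^ 2 ∂ν = 3 / 4 := by
    have e : (∫ x : ℝ, (x : ℂ) ^ 2 ∂ν) = ((∫ x : ℝ, x ^ 2 ∂ν : ℝ) : ℂ) := by
      rw [← integral_complex_ofReal]; simp
    rw [e] at h2
    have : ((∫ x : ℝ, x ^ 2 ∂ν : ℝ) : ℂ) = ((3 / 4 : ℝ) : ℂ) := by rw [h2]; push_cast; ring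
    exact_mod_cast this
  have r3 : ∫ x : ℝ, x ^ 3 ∂ν = 7 / 8 := by
    have e : (∫ x : ℝ, (x : ℂ) ^ 3 ∂ν) = ((∫ x : ℝ, x ^ 3 ∂ν : ℝ) : ℂ) := by
      rw [← integral_complex_ofReal]; simp
    rw [e] at h3
    have : ((∫ x : ℝ, x ^ 3 ∂ν : ℝ) : ℂ) = ((7 / 8 : ℝ) : ℂ) := by rw [h3]; push_cast; ring
    exact_mod_cast this
  have hnn : 0 ≤ ∫ x : ℝ, x * (x - 3 / 2) ^ 2 ∂ν := by
    apply integral_nonneg_of_ae
    filter_upwards [hpos] with x hx
    exact mul_nonneg hx (sq_nonneg _)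
  have hexp : ∫ x : ℝ, x * (x - 3 / 2) ^ 2 ∂ν =
      (∫ x : ℝ, x ^ 3 ∂ν) - 3 * (∫ x : ℝ, x ^ 2 ∂ν) + 9 / 4 * ∫ x : ℝ, x ∂ν := by
    have p1 : Integrable (fun x : ℝ => x) ν := by simpa using hpow 1
    have p2 : Integrable (fun x : ℝ => x ^ 3 - 3 * x ^ 2) ν := (hpow 3).sub ((hpow 2).const_mul 3)
    rw [← integral_const_mul, ← integral_const_mul,
      ← integral_sub (hpow 3) ((hpow 2).const_mul 3), ← integral_add p2 (p1.const_mul _)]
    congr 1
    funext x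
    ring
  rw [hexp, r1, r2, r3] at hnn
  norm_num at hnn

theorem not_freeRegular {k : ℝ} (hk : 0 < k) {μ : Measure ℝ} (hμ : CompactProb μ)
    (hR : IsRTransform μ (Rmu k)) : ¬ FreeRegular μ := by
  rintro ⟨_, h⟩
  obtain ⟨ν, hν, R, hRμ, hRν⟩ := h (1 / (2 * k)) (by positivity)
  have hkc : (k : ℂ) ≠ 0 := Complex.ofReal_ne_zero.2 hk.ne'
  -- our R-transform
  obtain ⟨P1, aP1, f0⟩ := factor hR.1
  obtain ⟨P2, aP2, f1⟩ := factor aP1
  obtain ⟨P3, aP3, f2⟩ := factor aP2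
  obtain ⟨c0, c1, c2⟩ := coeffs f0 f1 f2 aP3.continuousAt
  obtain ⟨m1, m2, m3⟩ := moments hμ hR (Eventually.of_forall f0) (Eventually.of_forall f1)
    (Eventually.of_forall f2) (Bd.of_continuousAt aP3.continuousAt)
  rw [c0] at m1 m2 m3
  rw [c1] at m2 m3
  rw [c2] at m3
  -- the given one
  obtain ⟨Q1, aQ1, g0⟩ := factor hRμ.1
  obtain ⟨Q2, aQ2, g1⟩ := factor aQ1
  obtain ⟨Q3, aQ3, g2⟩ := factor aQ2
  obtain ⟨n1, n2, n3⟩ := moments hμ hRμ (Eventually.of_forall g0) (Eventually.of_forall g1)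
    (Eventually.of_forall g2) (Bd.of_continuousAt aQ3.continuousAt)
  have d0 : R 0 = k := by rw [← n1, m1]
  have d1 : Q1 0 = k := by
    have : Q1 0 + R 0 ^ 2 = k + k ^ 2 := by rw [← n2, m2]
    rw [d0] at this
    linear_combination this
  have d2 : Q2 0 = 0 := by
    have : Q2 0 + 3 * R 0 * Q1 0 + R 0 ^ 3 = 0 + 3 * (k : ℂ) * k + k ^ 3 := by rw [← n3, m3]
    rw [d0, d1] at this
    linear_combination this
  -- the power
  set t : ℂ := ((1 / (2 * k) : ℝ) : ℂ) with ht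
  obtain ⟨l1, l2, l3⟩ := moments hν.1 (R1 := fun g => t * Q1 g) (R2 := fun g => t * Q2 g)
    (R3 := fun g => t * Q3 g) (r0 := t * R 0) (r1 := t * Q1 0) (r2 := t * Q2 0) hRν
    (Eventually.of_forall fun g => by rw [g0 g]; ring)
    (Eventually.of_forall fun g => by rw [g1 g]; ring)
    (Eventually.of_forall fun g => by rw [g2 g]; ring)
    ((Bd.const t).mul (Bd.of_continuousAt aQ3.continuousAt))
  have htk : t * k = 1 / 2 := by
    rw [ht]; push_cast; field_simp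
  rw [d0, htk] at l1
  rw [d0, d1, htk] at l2
  rw [d0, d1, d2, htk] at l3
  exact no_law hν l1 (by rw [l2]; norm_num) (by rw [l3]; norm_num)

theorem main : ∃ μ ν : Measure ℝ, CompactPos μ ∧ FreelyInfDiv μ ∧ ¬ FreeRegular μ ∧
    CompactPos ν ∧ IsFreeMulConv μ μ ν ∧ FreelyInfDiv ν := by
  obtain ⟨μ, hμ1, hμ2, hμ3⟩ := exists_law_ID semicircle (fun s => 1 - s ^ 2) (by fun_prop) 3 (by
    filter_upwards [ae_abs_le_two] with s hs
    have h1 := abs_le.1 hs
    rw [abs_le]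
    constructor <;> nlinarith [h1.1, h1.2]) 16 16 (by norm_num) (by
    have : √(16 : ℝ) = 4 := by
      rw [show (16 : ℝ) = 4 ^ 2 by norm_num]
      exact Real.sqrt_sq (by norm_num)
    rw [this]; norm_num)
  obtain ⟨ν, hν1, hν2, hν3⟩ := exists_law_ID lam2 (fun s => 16 * (1 + s)) (by fun_prop) 48 (by
    filter_upwards [ae_lam2] with s hs
    have h1 := abs_le.1 hs
    rw [abs_le]
    constructor <;> linarith [h1.1, h1.2]) (16 ^ 2) (2 * 16 ^ 3) (by norm_num) (by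
    have : √(2 * 16 ^ 3 : ℝ) ≤ 91 := by
      rw [Real.sqrt_le_left (by norm_num)]
      norm_num
    norm_num at this ⊢
    linarith)
  have hRμ : IsRTransform μ (Rmu 16) := hμ3
  have hRν : IsRTransform ν (Rnu 16) := hν3
  exact ⟨μ, ν, hμ1, hμ2, not_freeRegular (by norm_num) hμ1.1 hRμ, hν1,
    freeMul (by norm_num) hμ1.1 hν1.1 hRμ hRν, hν2⟩

end Pool.Agent.R767.FM
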