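import Mathlib
import Pool.Agent.R767.FM.Defs
import Pool.Agent.R767.FM.Fin

/-!
# A freely infinitely divisible law on `[0, ∞)` that is not free regular, but whose free
multiplicative square is freely infinitely divisible

Definitions: `CompactProb`, `cauchyT`, `IsRTransform`, `IsFreePow`, `FreelyInfDiv` are in
`Pool/Agent/Helper509/SphDefs.lean`; `CompactPos`, `IsFreePower`, `FreeRegular`, `psiT`,
`IsSTransform`, `IsFreeMulConv` are in `Pool/Agent/R767/FM/Defs.lean`.

The example: `μ` has R-transform `R(g) = 16 (1 + X)`, `X (1 + X) = g (1 + X + X²)`, that is, free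
drift/mean `16` and free Lévy measure the law of `1 - s²` times `16`, `s` semicircular;
`μ ⊠ μ` has R-transform `256 (1 + X)²` at `X / (16 (1 + X + X²))`, with Lévy measure carried by the
law of `16 (1 + s)` with density proportional to `2 + s ≥ 0`.
-/

set_option autoImplicit false

open MeasureTheory

namespace Pool.Agent.R767.FM.Square

open Pool.Agent.Helper509.SphDefs Pool.Agent.R767.FM

/-- There are a compactly supported law `μ` on `[0, ∞)` that is freely infinitely divisible and not
free regular, and a freely infinitely divisible compactly supported law `ν` on `[0, ∞)` with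
`ν = μ ⊠ μ`. -/
theorem result : ∃ μ ν : Measure ℝ, CompactPos μ ∧ FreelyInfDiv μ ∧ ¬ FreeRegular μ ∧
    CompactPos ν ∧ IsFreeMulConv μ μ ν ∧ FreelyInfDiv ν :=
  Pool.Agent.R767.FM.main

end Pool.Agent.R767.FM.Square
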